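import Mathlib
import Pool.Agent.TH841.PT.Fact8
import Pool.Agent.TH841.PT.Bas3
import Pool.Agent.TH344.JG.Stm

/-!
# Project PJ: families of polynomials with pairwise coprime squarefree differences
-/

set_option autoImplicit false

namespace Pool.Agent.TH344.PJ

open Finset Polynomial Pool.Agent.TH841.PT Pool.Agent.TH344.JG UniqueFactorizationMonoid

/-- the number of the irreducible factors of `p` over the rationals -/
noncomputable def nf (p : ℤ[X]) : ℕ :=
  (normalizedFactors (p.map (Int.castRingHom ℚ))).card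

/-- the differences are squarefree, and the differences of different pairs are coprime, over `ℚ` -/
structure Gen {n : ℕ} (u : Fin n → ℤ[X]) : Prop where
  sqf : ∀ i j, i < j → Squarefree ((u i - u j).map (Int.castRingHom ℚ))
  cop : ∀ i j k l, i < j → k < l → (i, j) ≠ (k, l) →
    IsCoprime ((u i - u j).map (Int.castRingHom ℚ)) ((u k - u l).map (Int.castRingHom ℚ))

lemma map_irr {p : ℤ[X]} (h : Irreducible p) (hd : 0 < p.natDegree) :
    Irreducible (p.map (Int.castRingHom ℚ)) :=
  (IsPrimitive.Int.irreducible_iff_irreducible_map_cast (h.isPrimitive hd.ne')).1 h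

lemma nf_prod {c : ℤ} (hc : c ≠ 0) {S : Finset ℤ[X]}
    (hS : ∀ f ∈ S, Irreducible f ∧ 0 < f.natDegree) : nf (C c * ∏ f ∈ S, f) = S.card := by
  unfold nf
  have h1 : (C c * ∏ f ∈ S, f).map (Int.castRingHom ℚ) =
      C ((c : ℤ) : ℚ) * (S.val.map (fun f => f.map (Int.castRingHom ℚ))).prod := by
    rw [Polynomial.map_mul, Polynomial.map_C, Polynomial.map_prod]
    rfl
  have h2 : ∀ q ∈ S.val.map (fun f => f.map (Int.castRingHom ℚ)), Irreducible q := by
    intro q hq
    rw [Multiset.mem_map] at hq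
    obtain ⟨f, hf, rfl⟩ := hq
    exact map_irr (hS f hf).1 (hS f hf).2
  have h3 : (C ((c : ℤ) : ℚ) : ℚ[X]) ≠ 0 := by
    rw [Ne, C_eq_zero]
    exact_mod_cast hc
  have h4 : (S.val.map (fun f => f.map (Int.castRingHom ℚ))).prod ≠ 0 := by
    apply Multiset.prod_ne_zero
    intro h0
    exact (h2 0 h0).ne_zero rfl
  rw [h1, normalizedFactors_mul h3 h4, normalizedFactors_prod_eq _ h2,
    normalizedFactors_of_isUnit, zero_add, Multiset.card_map, Multiset.card_map]
  · rfl
  · rw [Polynomial.isUnit_C, isUnit_iff_ne_zero]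
    exact_mod_cast hc

/-- the irreducible factors of the differences -/
theorem exists_data {n : ℕ} (u : Fin n → ℤ[X]) (h : Gen u) :
    ∃ (J : Type) (_ : Fintype J) (_ : DecidableEq J) (κ : PR n → ℤ) (cls : J → PR n)
      (f : J → ℤ[X]), Irr f ∧ (∀ c, κ c ≠ 0) ∧
      (∀ c : PR n, u c.1.1 - u c.1.2 = C (κ c) * ∏ j ∈ univ.filter (fun j => cls j = c), f j) ∧
      ∀ c : PR n, (univ.filter (fun j => cls j = c)).card = nf (u c.1.1 - u c.1.2) := by
  classical
  choose S κ hκ hfac hS using fun c : PR n => exists_irr (u c.1.1 - u c.1.2) (h.sqf _ _ c.2)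
  have hprod : ∀ (c : PR n) (M : Type) [CommMonoid M] (F : ℤ[X] → M),
      ∏ j ∈ (univ : Finset ((c : PR n) × {p // p ∈ S c})).filter (fun j => j.1 = c), F j.2.1 =
      ∏ p ∈ S c, F p := by
    intro c M _ F
    rw [prod_filter, Fintype.prod_sigma, prod_eq_single c]
    · simp only [if_true]
      exact prod_coe_sort (S c) F
    · intro b _ hb
      simp [hb]
    · intro hc
      exact absurd (mem_univ c) hc
  refine ⟨(c : PR n) × {p // p ∈ S c}, inferInstance, inferInstance, κ, fun j => j.1,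
    fun j => j.2.1, ⟨?_, ?_, ?_⟩, hκ, ?_, ?_⟩
  · intro j
    exact (hS j.1 j.2.1 j.2.2).1
  · intro j
    exact (hS j.1 j.2.1 j.2.2).2
  · rintro ⟨c, p, hp⟩ ⟨c', q, hq⟩ hne has
    simp only at has
    have hdp : p.map (Int.castRingHom ℚ) ∣ (u c.1.1 - u c.1.2).map (Int.castRingHom ℚ) := by
      apply Polynomial.map_dvd
      rw [hfac c]
      exact Dvd.dvd.mul_left (dvd_prod_of_mem _ hp) _
    have hirr := map_irr (hS c p hp).1 (hS c p hp).2
    by_cases hcc : c = c'
    · subst hcc
      have hpq : p ≠ q := by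
        rintro rfl
        exact hne rfl
      have h1 : p * q ∣ u c.1.1 - u c.1.2 := by
        rw [hfac c]
        apply Dvd.dvd.mul_left
        rw [← mul_prod_erase (S c) (fun f => f) hp]
        exact mul_dvd_mul_left p (dvd_prod_of_mem _ (mem_erase.2 ⟨hpq.symm, hq⟩))
      have h2 : p * p ∣ u c.1.1 - u c.1.2 := (mul_dvd_mul_left p has.dvd).trans h1
      have h3 := Polynomial.map_dvd (Int.castRingHom ℚ) h2
      rw [Polynomial.map_mul] at h3
      exact hirr.not_isUnit (h.sqf _ _ c.2 _ h3)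
    · have hdq : p.map (Int.castRingHom ℚ) ∣
          (u c'.1.1 - u c'.1.2).map (Int.castRingHom ℚ) := by
        apply Polynomial.map_dvd
        rw [hfac c']
        exact has.dvd.trans (Dvd.dvd.mul_left (dvd_prod_of_mem _ hq) _)
      have h1 := h.cop c.1.1 c.1.2 c'.1.1 c'.1.2 c.2 c'.2 (fun he => hcc (Subtype.ext he))
      exact hirr.not_isUnit (h1.isUnit_of_dvd' hdp hdq)
  · intro c
    rw [hprod c ℤ[X] (fun p => p)]
    exact hfac c
  · intro c
    have h1 := hprod c (Multiplicative ℕ) (fun _ => Multiplicative.ofAdd 1)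
    rw [hfac c, nf_prod (hκ c) (hS c)]
    rw [prod_const, prod_const] at h1
    simpa using congrArg Multiplicative.toAdd h1

end Pool.Agent.TH344.PJ
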