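import Mathlib
import Pool.Agent.TH841.PT.Avg3G
import Pool.Agent.TH344.JG.Stm

/-!
# Project PJ: one-parameter families of hyperelliptic Jacobians

`J_t` is the Jacobian of `y² = ∏ (x - u_i(t))`, `u_0, ..., u_(2g)` polynomials with integer
coefficients such that each difference `u_i - u_j` is a constant times `ν` irreducible polynomials,
all these polynomials (for all pairs) being pairwise non-associated. The moments of the orders of the
2-Selmer groups over `N < t ≤ N + X`, `|N| ≤ X ^ B`, are bounded for `2 ^ k ≤ 2 g`. Follows the second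
half of project PT (`AV3`, `AV3G`) and project JG.
-/

set_option autoImplicit false

namespace Pool.Agent.TH344.PJ

open Finset Polynomial Pool.Agent.W262.RK Pool.Agent.W307.RT Pool.Agent.W307.RS
open Pool.Agent.TH841.PT Pool.Agent.TH344.JG

open Pool.Agent.H474R2.PG (rho)

section

variable {J : Type} [Fintype J] [DecidableEq J] {n : ℕ}

/-- the data of a family: `u_i - u_j = κ_c ∏ f_l`, the product over the `ν` indices `l` of the class
`c = (i, j)` -/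
structure Pen (u : Fin n → ℤ[X]) (κ : PR n → ℤ) (cls : J → PR n) (f : J → ℤ[X]) (ν : ℕ) : Prop where
  irr : Irr f
  ne : ∀ c, κ c ≠ 0
  card : ∀ c, (univ.filter (fun j => cls j = c)).card = ν
  fac : ∀ c : PR n, u c.1.1 - u c.1.2 = C (κ c) * ∏ j ∈ univ.filter (fun j => cls j = c), f j

/-- the large primes are good -/
structure GoodP (κ : PR n → ℤ) (f : J → ℤ[X]) (z c : ℕ) : Prop where
  two : 2 * c + 2 ≤ z
  four : 4 ≤ z
  one : 1 ≤ c
  const : ∀ p : ℕ, p.Prime → z < p → ∀ c, ¬ (p : ℤ) ∣ κ c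
  pair : ∀ p : ℕ, p.Prime → z < p → ∀ j l, j ≠ l → ∀ t : ℤ,
    ¬ ((p : ℤ) ∣ (f j).eval t ∧ (p : ℤ) ∣ (f l).eval t)
  good : GoodD (∏ j, f j) z c

/-- the polynomial `∏_(l ≠ i, j) (u_i - u_l)` for `c = (i, j)` -/
noncomputable def sP (u : Fin n → ℤ[X]) (c : PR n) : ℤ[X] :=
  ∏ l ∈ univ.filter (fun l => l ≠ c.1.1 ∧ l ≠ c.1.2), (u c.1.1 - u l)

/-- the type of the root `t` of `f j` modulo `p`: is `sP` a nonsquare? -/
noncomputable def tyJ (u : Fin n → ℤ[X]) (cls : J → PR n) (p : ℕ) (t : ℤ) (j : J) : Bool :=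
  decide (jacobiSym ((sP u (cls j)).eval t) p = -1)

/-- the part of `f_j(t)` composed of the primes `p > z` of the type `b` -/
noncomputable def prJ (u : Fin n → ℤ[X]) (cls : J → PR n) (f : J → ℤ[X]) (z : ℕ) (t : ℤ)
    (i : J × Bool) : ℤ :=
  (partN ((f i.1).eval t).natAbs (fun p => z < p ∧ tyJ u cls p t i.1 = i.2) : ℕ)

/-- the number of the roots of a given type -/
noncomputable def rJ (u : Fin n → ℤ[X]) (cls : J → PR n) (f : J → ℤ[X]) (z : ℕ) (i : J × Bool)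
    (p : ℕ) : ℝ :=
  if p.Prime ∧ z < p then (((range p).filter (fun x : ℕ => (p : ℤ) ∣ (f i.1).eval (x : ℤ) ∧
    tyJ u cls p x i.1 = i.2)).card : ℝ) else 0

/-- the adjacency of the indices -/
def adJ (cls : J → PR n) (i i' : J × Bool) : Bool := adj (cls i.1) (cls i'.1)

/-- the primes with negative sign -/
def Eneg (s : J × Bool → ℕ) : Finset ℕ := (∏ j, s (j, true)).primeFactors

/-- PJ-RNK: the Selmer group and the local count. -/
def S_RNKJ : Prop := ∀ (g ν : ℕ) (J : Type) [Fintype J] [DecidableEq J]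
  (u : Fin (2 * g + 1) → ℤ[X]) (κ : PR (2 * g + 1) → ℤ) (cls : J → PR (2 * g + 1))
  (f : J → ℤ[X]) (z c : ℕ), 1 ≤ g → Pen u κ cls f ν → GoodP κ f z c →
  ∃ C0 : ℝ, 0 ≤ C0 ∧ ∀ (y X k B : ℕ) (t : ℤ), (∀ j, (f j).eval t ≠ 0) →
    (∀ j, ((f j).eval t).natAbs ≤ X ^ B) → 1 ≤ X → 1 ≤ y → X < (y + 1) ^ k →
    (SelJ (fun i => (u i).eval t)).Finite ∧
    ((SelJ (fun i => (u i).eval t)).ncard : ℝ) ≤
      C0 * ((2 ^ (2 * g + 1)) ^ (B * Fintype.card J)) ^ k *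
        (∏ i, ((2 : ℝ) ^ (2 * g + 1)) ^ (S2 z y (prJ u cls f z t) i).primeFactors.card) *
        (NV (adJ cls) (S1 z y (prJ u cls f z t)) (Eneg (S1 z y (prJ u cls f z t))) : ℝ)

/-- PJ-CNT: the counting lemma. -/
def S_CNTJ : Prop := ∀ (n : ℕ) (J : Type) [Fintype J] [DecidableEq J]
  (u : Fin n → ℤ[X]) (κ : PR n → ℤ) (cls : J → PR n) (f : J → ℤ[X]) (z c : ℕ) (G : ℤ[X]),
  GoodP κ f z c → Good2 (∏ j, f j) G z c →
  ∃ (C : ℝ) (K y0 : ℕ), 0 ≤ C ∧ 1 ≤ K ∧ ∀ (N : ℤ) (X y Y : ℕ), y0 ≤ y → z < y → y ^ K ≤ X →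
    ∀ s v w : J × Bool → ℕ, s ∈ Tup (J × Bool) z y → v ∈ Tup (J × Bool) z y →
    w ∈ Tup (J × Bool) y Y → (∏ i, s i * v i * w i) ^ 8 ≤ X → ∀ T' : Finset ℕ,
    (∀ t ∈ T', t ∈ Icc 1 X ∧ (∀ j, (f j).eval (N + (t : ℤ)) ≠ 0) ∧
      S1 z y (prJ u cls f z (N + (t : ℤ))) = s ∧ S2 z y (prJ u cls f z (N + (t : ℤ))) = v ∧
      (∀ i, (w i : ℤ) ∣ prJ u cls f z (N + (t : ℤ)) i) ∧
      ∀ p ∈ PS z y, ¬ (p : ℤ) ∣ G.eval (N + (t : ℤ))) →
    (T'.card : ℝ) ≤ C * X * (∏ i, gp (rJ u cls f z i) c (s i)) *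
      (∏ i, gp (rJ u cls f z i) c (v i) / v i) *
      (∏ i, (c : ℝ) ^ (w i).primeFactors.card / w i) *
      Real.exp (-Sp (fun p => rho (∏ j, f j) p) z y) * Real.exp (-Sp (fun p => rho G p) z y)

end

/-- PJ-EXP: expansion of the moments of the local count into symbols. -/
def S_EXPJ : Prop := ∀ (V : Type) [Fintype V] [DecidableEq V] (ad : V → V → Bool),
  (∀ c, ad c c = false) → (∀ c c', ad c c' = ad c' c) → ∀ (k c z y : ℕ) (g : V × Bool → ℕ → ℝ),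
  2 ≤ z →
  ∑ s ∈ Tup (V × Bool) z y,
      (NV (fun i i' : V × Bool => ad i.1 i'.1) s (∏ v, s (v, true)).primeFactors : ℝ) ^ k *
        ∏ i, gp (g i) c (s i) =
    ∑ d ∈ Tup (IV V k (fun _ _ => true)) z y,
      (∏ i : IV V k (fun _ _ => true), gp (fun p => (g (i.1.1, false) p +
        (if dtp i.1.2.1 i.1.2.2 = true then -1 else 1) * g (i.1.1, true) p) / 2 ^ k) c (d i)) *
      Sym (LV ad) (fun _ => 1) d

/-- PJ-SUB: growth of the moments of the local count. -/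
def S_SUBJ : Prop := ∀ (V : Type) [Fintype V] [DecidableEq V] (ad : V → V → Bool) (k z y : ℕ),
  2 ≤ z → ∀ s e : V × Bool → ℕ, (fun i => s i * e i) ∈ Tup (V × Bool) z y →
    (NV (fun i i' : V × Bool => ad i.1 i'.1) (fun i => s i * e i)
        (∏ v, s (v, true) * e (v, true)).primeFactors : ℝ) ^ k ≤
      (2 ^ k : ℝ) ^ (∑ i, (e i).primeFactors.card) *
        (NV (fun i i' : V × Bool => ad i.1 i'.1) s (∏ v, s (v, true)).primeFactors : ℝ) ^ k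

/-- PJ-CMB: the largest unlinked set. -/
def S_CMBJ : Prop := ∀ (g k ν : ℕ) (J : Type) [Fintype J] [DecidableEq J]
  (cls : J → PR (2 * g + 1)), 1 ≤ g → 2 ^ k ≤ 2 * g →
  (∀ c, (univ.filter (fun j => cls j = c)).card = ν) →
  ∀ U : Finset (IV J k (fun _ _ => true)),
  (∀ i ∈ U, ∀ j ∈ U, LV (fun j l => adj (cls j) (cls l)) i j =
    LV (fun j l => adj (cls j) (cls l)) j i) → U.card ≤ 2 ^ k * Fintype.card J

/-- PJ-MAK: the main average. -/
def S_MAKJ : Prop := ∀ (g k ν : ℕ) (J : Type) [Fintype J] [DecidableEq J]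
  (u : Fin (2 * g + 1) → ℤ[X]) (κ : PR (2 * g + 1) → ℤ) (cls : J → PR (2 * g + 1))
  (f : J → ℤ[X]), 1 ≤ g → 1 ≤ k → 2 ^ k ≤ 2 * g → 1 ≤ ν → Pen u κ cls f ν →
  ∀ c : ℕ, (∏ j, f j).natDegree + 1 ≤ c → ∃ z0 : ℕ, ∀ z, z0 ≤ z → GoodP κ f z c ∧
    ∃ C : ℝ, ∀ y, z < y →
      ∑ s ∈ Tup (J × Bool) z y, (NV (adJ cls) s (Eneg s) : ℝ) ^ k *
        ∏ i, gp (rJ u cls f z i) c (s i) ≤
        C * Real.exp (Sp (fun p => rho (∏ j, f j) p) z y)

/-- PJ-AVG: the moments of the 2-Selmer groups in the family, over the arguments where a second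
polynomial has no small prime factors. -/
def S_PENJ : Prop := ∀ (g k ν B : ℕ) (J : Type) [Fintype J] [DecidableEq J]
  (u : Fin (2 * g + 1) → ℤ[X]) (κ : PR (2 * g + 1) → ℤ) (cls : J → PR (2 * g + 1))
  (f : J → ℤ[X]), 1 ≤ g → 1 ≤ k → 2 ^ k ≤ 2 * g → 1 ≤ ν → Pen u κ cls f ν →
  ∀ G : ℤ[X], Squarefree (((∏ j, f j) * G).map (Int.castRingHom ℚ)) →
    ∃ z0 : ℕ, ∀ z, z0 ≤ z → ∃ C2 : ℝ, ∀ (N : ℤ) (X : ℕ), 1 ≤ X → N.natAbs ≤ X ^ B →
      ∀ T : Finset ℕ, T ⊆ Icc 1 X → (∀ t ∈ T, (∀ j, (f j).eval (N + (t : ℤ)) ≠ 0) ∧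
        Sft G z X (N + (t : ℤ))) →
      ∑ t ∈ T, ((SelJ (fun i => (u i).eval (N + (t : ℤ)))).ncard : ℝ) ^ k ≤
        C2 * (X * Real.exp (-Sp (fun p => (rho G p : ℝ)) z X))

end Pool.Agent.TH344.PJ
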