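import Mathlib
import Pool.Agent.TH344.PJ.Stm
import Pool.Agent.TH841.PT.Fin1

/-!
# Project PJ: assembly of the moments of the 2-Selmer groups
-/

set_option autoImplicit false

namespace Pool.Agent.TH344.PJ

open Finset Polynomial Pool.Agent.W262.RK Pool.Agent.W307.RT Pool.Agent.W307.RS
open Pool.Agent.TH841.PT Pool.Agent.TH344.JG

open Pool.Agent.H474R2.PG (rho)

namespace Avgf

section

variable {J : Type} [Fintype J] [DecidableEq J] {n : ℕ}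

omit [Fintype J] [DecidableEq J] in
lemma prJ_dvd {u : Fin n → ℤ[X]} {cls : J → PR n} {f : J → ℤ[X]} {z : ℕ} {t : ℤ}
    (h0 : ∀ j, (f j).eval t ≠ 0) (i : J × Bool) {p : ℕ} (hp : p.Prime) (hz : z < p) :
    (p : ℤ) ∣ prJ u cls f z t i ↔ (p : ℤ) ∣ (f i.1).eval t ∧ tyJ u cls p t i.1 = i.2 := by
  have h1 : ∀ x : ℤ, (p : ℤ) ∣ x ↔ p ^ 1 ∣ x.natAbs := by
    intro x
    rw [← Int.natCast_dvd, pow_one]
  unfold prJ
  rw [h1, h1, Int.natAbs_natCast]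
  by_cases hty : tyJ u cls p t i.1 = i.2
  · rw [partN_pow (Int.natAbs_ne_zero.2 (h0 _)) hp ⟨hz, hty⟩]
    simp [hty]
  · constructor
    · intro h2
      rw [pow_one] at h2
      exact absurd (partN_of hp h2).2 hty
    · intro h2
      exact absurd h2.2 hty

omit [DecidableEq J] in
lemma prJ_Gd {u : Fin n → ℤ[X]} {κ : PR n → ℤ} {cls : J → PR n} {f : J → ℤ[X]} {z c : ℕ}
    (h : GoodP κ f z c) {t : ℤ} (h0 : ∀ j, (f j).eval t ≠ 0) : Gd z (prJ u cls f z t) := by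
  refine ⟨fun i => ?_, fun p hp hz i i' hii' => ?_⟩
  · unfold prJ
    exact_mod_cast partN_ne _ _
  · rintro ⟨h1, h2⟩
    rw [prJ_dvd h0 i hp hz] at h1
    rw [prJ_dvd h0 i' hp hz] at h2
    by_cases hj : i.1 = i'.1
    · apply hii'
      refine Prod.ext hj ?_
      rw [← h1.2, ← h2.2, hj]
    · exact h.pair p hp hz _ _ hj t ⟨h1.1, h2.1⟩

omit [Fintype J] [DecidableEq J] in
lemma rJ_nonneg (u : Fin n → ℤ[X]) (cls : J → PR n) (f : J → ℤ[X]) (z : ℕ) (i : J × Bool)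
    (p : ℕ) : 0 ≤ rJ u cls f z i p := by
  unfold rJ
  split_ifs
  · exact Nat.cast_nonneg _
  · exact le_rfl

omit [DecidableEq J] in
lemma rJ_le {u : Fin n → ℤ[X]} {κ : PR n → ℤ} {cls : J → PR n} {f : J → ℤ[X]} {z c : ℕ}
    (h : GoodP κ f z c) (i : J × Bool) (p : ℕ) : rJ u cls f z i p ≤ c := by
  unfold rJ
  split_ifs with h1
  · have h2 := (h.good p h1.1 h1.2).1
    have h3 : ((range p).filter (fun x : ℕ => (p : ℤ) ∣ (f i.1).eval (x : ℤ) ∧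
        tyJ u cls p x i.1 = i.2)).card ≤ rho (∏ j, f j) p := by
      unfold rho
      refine card_le_card fun x hx => ?_
      rw [mem_filter] at hx ⊢
      refine ⟨hx.1, ?_⟩
      rw [eval_prod]
      exact hx.2.1.trans (dvd_prod_of_mem (fun j => (f j).eval (x : ℤ)) (mem_univ i.1))
    exact_mod_cast h3.trans h2
  · exact Nat.cast_nonneg _

end

end Avgf

open Avgf in
/-- **the moments of the 2-Selmer groups in the family** -/
theorem penj_of (h1 : Pool.Agent.TH344.PJ.S_RNKJ) (h2 : Pool.Agent.TH344.PJ.S_CNTJ)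
    (h3 : Pool.Agent.TH344.PJ.S_SUBJ) (h4 : Pool.Agent.TH344.PJ.S_MAKJ) :
    Pool.Agent.TH344.PJ.S_PENJ := by
  intro g k0 ν B J _ _ u κ cls f hg hk0 h2k hν hpen G hDG
  classical
  have hDG0 : (∏ j, f j) * G ≠ 0 := by
    intro h0
    rw [h0, Polynomial.map_zero] at hDG
    exact not_squarefree_zero hDG
  set c := ((∏ j, f j) * G).natDegree + 1 with hc
  have hcc : (∏ j, f j).natDegree + 1 ≤ c := by
    rw [hc, natDegree_mul (left_ne_zero_of_mul hDG0) (right_ne_zero_of_mul hDG0)]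
    omega
  obtain ⟨z0, hz0⟩ := h4 g k0 ν J u κ cls f hg hk0 h2k hν hpen c hcc
  obtain ⟨zg, hzg⟩ := GDPf.gdp _ hDG
  refine ⟨z0 + zg, fun z hz => ?_⟩
  obtain ⟨hG, C', hC'⟩ := hz0 z (by omega)
  have hDGz : GoodD ((∏ j, f j) * G) z c := by
    intro p hp hzp
    obtain ⟨h1, h2⟩ := hzg z (by omega) p hp hzp
    exact ⟨h1.trans (by omega), h2⟩
  have hG2 := (good2_of hDGz).2
  have hz4 := hG.four
  have hz2 := hG.two
  have hc1 := hG.one
  obtain ⟨Cc, K, y0, hC0, hK1, hcn⟩ := h2 (2 * g + 1) J u κ cls f z c G hG hG2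
  obtain ⟨Cr, hCr0, hrank⟩ := h1 g ν J u κ cls f z c hg hpen hG
  obtain ⟨At, hAt0, hAt⟩ := tail_le (z := z) (by omega)
  obtain ⟨Kd, m, hKd⟩ := eval_le_all f
  set B' : ℕ := (B + 2) * m + 1 with hB'
  set y1 : ℕ := y0 + Kd + 3 with hy1
  -- the summand
  let r : ℤ → ℝ := fun w => ((SelJ (fun i => (u i).eval w)).ncard : ℝ) ^ k0
  have hr0 : ∀ w, 0 ≤ r w := fun w => by positivity
  suffices key : ∃ C2 : ℝ, ∀ θ : {θ : (ℤ × ℕ) × Finset ℕ // (1 ≤ θ.1.2 ∧ θ.1.1.natAbs ≤ θ.1.2 ^ B) ∧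
      θ.2 ⊆ Icc 1 θ.1.2 ∧ ∀ t ∈ θ.2, (∀ j, (f j).eval (θ.1.1 + (t : ℤ)) ≠ 0) ∧
        Sft G z θ.1.2 (θ.1.1 + (t : ℤ))},
      ∑ t ∈ θ.1.2, r (θ.1.1.1 + (t : ℤ)) ≤
        C2 * ((θ.1.1.2 : ℝ) * Real.exp (-Sp (fun p => (rho G p : ℝ)) z θ.1.1.2)) by
    obtain ⟨C2, hC2⟩ := key
    exact ⟨C2, fun N X hX hN T hT hT' => hC2 ⟨((N, X), T), ⟨hX, hN⟩, hT, hT'⟩⟩
  set GG : (J × Bool → ℕ) → ℝ := fun s => (NV (adJ cls) s (Eneg s) : ℝ) ^ k0 with hGdef
  have hG0 : ∀ s, 0 ≤ GG s := fun s => by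
    rw [hGdef]
    positivity
  have hcz : c ≤ z := by omega
  have hgn : ∀ {y' : ℕ} {s : J × Bool → ℕ} (_ : s ∈ Tup (J × Bool) z y') (i : J × Bool),
      0 ≤ gp (rJ u cls f z i) c (s i) := fun hs i =>
    gp_nonneg (rJ_nonneg u cls f z i) hcz ((Pool.Agent.W405.RK2.mem_Tup.1 hs).1 i)
  set A2 : ℝ := ((2 : ℝ) ^ (2 * g + 1)) ^ k0 with hA2
  have hA21 : 1 ≤ A2 := one_le_pow₀ (one_le_pow₀ (by norm_num))
  set D1 : ℝ := (((2 : ℝ) ^ (2 * g + 1)) ^ (B' * Fintype.card J)) ^ k0 with hD1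
  have hD11 : 1 ≤ D1 := one_le_pow₀ (one_le_pow₀ (one_le_pow₀ (by norm_num)))
  refine antx (J × Bool) ℕ {θ : (ℤ × ℕ) × Finset ℕ // (1 ≤ θ.1.2 ∧ θ.1.1.natAbs ≤ θ.1.2 ^ B) ∧
      θ.2 ⊆ Icc 1 θ.1.2 ∧ ∀ t ∈ θ.2, (∀ j, (f j).eval (θ.1.1 + (t : ℤ)) ≠ 0) ∧
        Sft G z θ.1.2 (θ.1.1 + (t : ℤ))}
    (fun θ => θ.1.2)
    (fun θ => θ.1.1.2) (fun θ t => prJ u cls f z (θ.1.1.1 + (t : ℤ)))
    (fun θ => (θ.1.1.2 : ℝ) * Real.exp (-Sp (fun p => (rho G p : ℝ)) z θ.1.1.2)) z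
    (fun y => Real.exp (Sp (fun p => rho (∏ j, f j) p) z y))
    (fun s => GG s * ∏ i, gp (rJ u cls f z i) c (s i))
    (fun v => ∏ i, (A2 ^ (v i).primeFactors.card * (gp (rJ u cls f z i) c (v i) / v i)))
    (fun w => ∏ i, ((c : ℝ) ^ (w i).primeFactors.card / (w i : ℝ)))
    (fun θ t => r (θ.1.1.1 + (t : ℤ)))
    (Cc * Cr ^ k0 * Real.exp (c * At)) (D1 * Real.exp c) (K + 2) y1
    (by omega) (fun y _ => Real.exp_pos _)
    (fun θ => θ.2.1.1) (fun θ => by positivity) (fun X0 => ?_) (fun θ t ht => ?_)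
    (fun θ t => hr0 _) (by positivity)
    (one_le_mul_of_one_le_of_one_le hD11 (Real.one_le_exp (Nat.cast_nonneg _))) (by omega)
    (fun y s hs => ⟨?_, ?_⟩) (fun y Y hzy w hw => ?_) (fun lam hlam => ?_)
    (fun lam hlam => ?_) (fun lam hlam => ?_) ?_
  · -- small scales
    refine ⟨(∑ N ∈ Icc (-((X0 : ℤ) ^ B)) ((X0 : ℤ) ^ B), ∑ t ∈ Icc 1 X0, r (N + (t : ℤ))) *
      Real.exp (Sp (fun p => (rho G p : ℝ)) z X0), ?_⟩
    rintro ⟨⟨⟨N, X⟩, T⟩, ⟨hX, hN⟩, hT, hT'⟩ hle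
    simp only at hX hN hT hT' hle ⊢
    have hX0 : X ^ B ≤ X0 ^ B := Nat.pow_le_pow_left hle B
    have hmem : N ∈ Icc (-((X0 : ℤ) ^ B)) ((X0 : ℤ) ^ B) := by
      rw [mem_Icc]
      have h1 : (N.natAbs : ℤ) ≤ (X0 : ℤ) ^ B := by exact_mod_cast hN.trans hX0
      omega
    have h1 : ∑ t ∈ T, r (N + (t : ℤ)) ≤ ∑ t ∈ Icc 1 X0, r (N + (t : ℤ)) := by
      refine sum_le_sum_of_subset_of_nonneg ?_ fun t _ _ => hr0 _
      exact hT.trans (Icc_subset_Icc_right hle)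
    have h2 : ∑ t ∈ Icc 1 X0, r (N + (t : ℤ)) ≤
        ∑ N ∈ Icc (-((X0 : ℤ) ^ B)) ((X0 : ℤ) ^ B), ∑ t ∈ Icc 1 X0, r (N + (t : ℤ)) :=
      single_le_sum (f := fun N : ℤ => ∑ t ∈ Icc 1 X0, r (N + (t : ℤ)))
        (fun _ _ => sum_nonneg fun _ _ => hr0 _) hmem
    have h3 : 0 ≤ ∑ N ∈ Icc (-((X0 : ℤ) ^ B)) ((X0 : ℤ) ^ B), ∑ t ∈ Icc 1 X0, r (N + (t : ℤ)) :=
      sum_nonneg fun _ _ => sum_nonneg fun _ _ => hr0 _
    have h4 : (1 : ℝ) ≤ (X : ℝ) := by exact_mod_cast hX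
    have h5 : Sp (fun p => (rho G p : ℝ)) z X ≤ Sp (fun p => (rho G p : ℝ)) z X0 := by
      unfold Sp
      refine sum_le_sum_of_subset_of_nonneg ?_ fun p _ _ =>
        div_nonneg (Nat.cast_nonneg _) (Nat.cast_nonneg _)
      intro p hp
      have := mem_PS'.1 hp
      exact mem_PS'.2 ⟨⟨this.1.1, this.1.2.trans hle⟩, this.2⟩
    have h6 : (1 : ℝ) ≤ Real.exp (Sp (fun p => (rho G p : ℝ)) z X0) *
        Real.exp (-Sp (fun p => (rho G p : ℝ)) z X) := by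
      rw [← Real.exp_add]
      exact Real.one_le_exp (by linarith)
    have h7 : (1 : ℝ) ≤ Real.exp (Sp (fun p => (rho G p : ℝ)) z X0) *
        (X * Real.exp (-Sp (fun p => (rho G p : ℝ)) z X)) := by
      have := mul_le_mul h4 h6 zero_le_one (by linarith : (0 : ℝ) ≤ X)
      calc (1 : ℝ) = 1 * 1 := by ring
        _ ≤ X * (Real.exp (Sp (fun p => (rho G p : ℝ)) z X0) *
            Real.exp (-Sp (fun p => (rho G p : ℝ)) z X)) := this
        _ = _ := by ring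
    rw [mul_assoc]
    exact (h1.trans h2).trans (le_mul_of_one_le_right h3 h7)
  · exact prJ_Gd hG (θ.2.2.2 t ht).1
  · exact mul_nonneg (hG0 s) (prod_nonneg fun i _ => hgn hs i)
  · exact prod_nonneg fun i _ => mul_nonneg (by positivity)
      (div_nonneg (hgn hs i) (Nat.cast_nonneg _))
  · exact prod_nonneg fun i _ => by positivity
  · -- the first sum
    obtain ⟨A, hA⟩ := RSPf.rsp (J × Bool) z c (rJ u cls f z) GG
      (fun y => C' * Real.exp (Sp (fun p => rho (∏ j, f j) p) z y)) (2 ^ k0) lam (by omega)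
      (fun i p => ⟨rJ_nonneg u cls f z i p, rJ_le hG i p⟩) (one_le_pow₀ (by norm_num)) hlam hG0
      (fun y hy s e hse => h3 J (fun j l => adj (cls j) (cls l)) k0 z y (by omega) s e hse)
      (fun y hy => hC' y hy)
    refine ⟨A * C', fun y hy => ?_⟩
    have := hA y hy
    rw [mul_assoc]
    exact this
  · exact RVU.rvp (J × Bool) z c (rJ u cls f z) A2 lam (by omega)
      (fun i p => ⟨rJ_nonneg u cls f z i p, rJ_le hG i p⟩) hA21 hlam
  · exact RVU.rup (J × Bool) (c : ℝ) lam (by exact_mod_cast hc1) hlam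
  -- the local majorant
  rintro ⟨⟨⟨N, X⟩, T⟩, ⟨hX1, hN⟩, hT, hTT⟩ y Y k hy0 hzy hyK hk s hs v hv w hw h8 T' hT' hval
  simp only at hX1 hN hT hTT hyK hk h8 hT' hval ⊢
  have hy00 : y0 ≤ y := by omega
  have hyX : y ≤ X := le_trans (Nat.le_self_pow (by omega) y) hyK
  have hyK' : y ^ K ≤ X := (Nat.pow_le_pow_right (by omega) (by omega)).trans hyK
  have hy2 : y ^ 2 ≤ X := (Nat.pow_le_pow_right (by omega) (by omega)).trans hyK
  have h1 : ∀ t ∈ T', r (N + (t : ℤ)) ≤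
      Cr ^ k0 * D1 ^ k * (∏ i, A2 ^ (v i).primeFactors.card) * GG s := by
    intro t ht
    have htT := hT' ht
    have ht1 := hT htT
    have ht0 := (hTT t htT).1
    obtain ⟨hts, htv, _⟩ := hval t ht
    have hsize : ∀ j, ((f j).eval (N + (t : ℤ))).natAbs ≤ X ^ B' := by
      intro j
      have e2 : t ≤ X := (mem_Icc.1 ht1).2
      have e5 : X ^ B ≤ X ^ (B + 1) := Nat.pow_le_pow_right hX1 (by omega)
      have e6 : X ≤ X ^ (B + 1) := Nat.le_self_pow (by omega) X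
      have e8 : (N + (t : ℤ)).natAbs ≤ X ^ (B + 2) := by
        calc (N + (t : ℤ)).natAbs ≤ N.natAbs + t :=
              (Int.natAbs_add_le _ _).trans (by rw [Int.natAbs_natCast])
          _ ≤ X ^ (B + 1) + X ^ (B + 1) := Nat.add_le_add (hN.trans e5) (e2.trans e6)
          _ = 2 * X ^ (B + 1) := by ring
          _ ≤ X * X ^ (B + 1) := Nat.mul_le_mul_right _ (by omega)
          _ = X ^ (B + 2) := by ring
      calc ((f j).eval (N + (t : ℤ))).natAbs ≤ Kd * (X ^ (B + 2)) ^ m :=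
            hKd _ _ (Nat.one_le_pow _ _ hX1) e8 j
        _ ≤ X * (X ^ (B + 2)) ^ m := Nat.mul_le_mul_right _ (by omega)
        _ = X ^ B' := by rw [hB', ← pow_mul]; ring
    have hr := (hrank y X k B' (N + (t : ℤ)) ht0 hsize hX1 (by omega) hk).2
    rw [hts, htv] at hr
    refine (pow_le_pow_left₀ (Nat.cast_nonneg _) hr k0).trans (le_of_eq ?_)
    rw [mul_pow, mul_pow, mul_pow, ← prod_pow]
    have e1 : ((((2 : ℝ) ^ (2 * g + 1)) ^ (B' * Fintype.card J)) ^ k) ^ k0 = D1 ^ k := by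
      rw [hD1, ← pow_mul, ← pow_mul _ k0 k, mul_comm k k0]
    have e2 : ∏ i : J × Bool, (((2 : ℝ) ^ (2 * g + 1)) ^ (v i).primeFactors.card) ^ k0 =
        ∏ i, A2 ^ (v i).primeFactors.card := by
      refine prod_congr rfl fun i _ => ?_
      rw [hA2, ← pow_mul, ← pow_mul _ k0, mul_comm k0]
    rw [e1, e2]
  have hT'c : (T'.card : ℝ) ≤ _ := hcn N X y Y hy00 hzy hyK' s v w hs hv hw h8 T' fun t ht => by
    have htT := hT' ht
    obtain ⟨hts, htv, htw⟩ := hval t ht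
    refine ⟨hT htT, (hTT t htT).1, hts, htv, htw, fun p hp => ?_⟩
    have hp' := mem_PS'.1 hp
    exact (hTT t htT).2 p hp'.2 hp'.1.1 ((Nat.pow_le_pow_left hp'.1.2 2).trans hy2)
  set SG : ℝ := Real.exp (-Sp (fun p => (rho G p : ℝ)) z X) with hSG
  have hGc : ∀ p : ℕ, p.Prime → z < p → rho G p ≤ c := fun p hp hzp =>
    (Nat.le_add_left _ _).trans (hG2 p hp hzp).1
  have hexpG := exp_G hGc hzy (hAt y X k hzy hk)
  have n1 : 0 ≤ ∏ i, gp (rJ u cls f z i) c (s i) := prod_nonneg fun i _ => hgn hs i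
  have n2 : 0 ≤ ∏ i, gp (rJ u cls f z i) c (v i) / v i :=
    prod_nonneg fun i _ => div_nonneg (hgn hv i) (Nat.cast_nonneg _)
  have n3 : 0 ≤ ∏ i, (c : ℝ) ^ (w i).primeFactors.card / w i :=
    prod_nonneg fun i _ => by positivity
  have n4 : 0 ≤ Cr ^ k0 * D1 ^ k * (∏ i, A2 ^ (v i).primeFactors.card) * GG s := by
    have := hG0 s
    have h5 : 0 ≤ D1 := by linarith
    have h6 : 0 ≤ A2 := by linarith
    positivity
  have h5 : (T'.card : ℝ) ≤ Cc * X * (∏ i, gp (rJ u cls f z i) c (s i)) *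
      (∏ i, gp (rJ u cls f z i) c (v i) / v i) *
      (∏ i, (c : ℝ) ^ (w i).primeFactors.card / w i) *
      Real.exp (-Sp (fun p => rho (∏ j, f j) p) z y) *
      (Real.exp (c * At) * (Real.exp c) ^ k * SG) := by
    refine hT'c.trans (mul_le_mul_of_nonneg_left hexpG ?_)
    positivity
  calc ∑ t ∈ T', r (N + (t : ℤ))
      ≤ ∑ t ∈ T', Cr ^ k0 * D1 ^ k * (∏ i, A2 ^ (v i).primeFactors.card) * GG s := sum_le_sum h1
    _ = (T'.card : ℝ) * (Cr ^ k0 * D1 ^ k * (∏ i, A2 ^ (v i).primeFactors.card) * GG s) := by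
        rw [sum_const, nsmul_eq_mul]
    _ ≤ (Cc * X * (∏ i, gp (rJ u cls f z i) c (s i)) *
      (∏ i, gp (rJ u cls f z i) c (v i) / v i) *
      (∏ i, (c : ℝ) ^ (w i).primeFactors.card / w i) *
      Real.exp (-Sp (fun p => rho (∏ j, f j) p) z y) *
      (Real.exp (c * At) * (Real.exp c) ^ k * SG)) *
        (Cr ^ k0 * D1 ^ k * (∏ i, A2 ^ (v i).primeFactors.card) * GG s) :=
        mul_le_mul_of_nonneg_right h5 n4
    _ = _ := by
        rw [Real.exp_neg (Sp (fun p => (rho (∏ j, f j) p : ℝ)) z y), prod_mul_distrib, mul_pow D1]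
        ring

end Pool.Agent.TH344.PJ
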