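import Mathlib
import Pool.Agent.TH344.PJ.Stm
import Pool.Agent.TH344.JG.Ext

/-!
# PJ-CMB: the largest unlinked set, full index set
-/

set_option autoImplicit false

namespace Pool.Agent.TH344.PJ

open Finset Pool.Agent.TH344.JG

namespace CmbJ

open Pool.Agent.TH344.JG.Ext

/-- the combinatorial part -/
lemma main_comb (g k : ℕ) (hg : 2 ^ k ≤ 2 * g) (w s : PR (2 * g + 1) → ℕ)
    (h1 : ∀ c c', adj c c' = true → w c + w c' ≤ 2 * k)
    (h2 : ∀ c, s c ≤ 2 ^ w c) (h4 : ∀ c, w c ≤ 2 * k) :
    ∑ c, s c ≤ 2 ^ k * Fintype.card (PR (2 * g + 1)) := by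
  obtain ⟨v0, hv0⟩ := exists_free w h1
  have hk0 : (0 : ℝ) < 2 ^ k := by positivity
  have hgr : (2 : ℝ) ^ k ≤ 2 * g := by exact_mod_cast hg
  have ht0 : tt w k v0 = 0 := tt_zero w hv0
  -- the defect of an edge
  have key : ∀ c : PR (2 * g + 1), (tt w k c.1.1 + tt w k c.1.2) / 2 - (2 * g + 1) * tau w k c +
      (if inc v0 c then (tt w k c.1.1 + tt w k c.1.2) / 2 else 0) ≤ 1 - (s c : ℝ) / 2 ^ k := by
    intro c
    by_cases hc : k < w c
    · -- heavy edges
      have hi1 : inc c.1.1 c := Or.inl rfl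
      have hi2 : inc c.1.2 c := Or.inr rfl
      have hn : ¬ inc v0 c := fun h => absurd (hv0 c h) (not_le.2 hc)
      rw [tt_eq w h1 hi1 hc, tt_eq w h1 hi2 hc, if_neg hn, tau, if_pos hc]
      obtain ⟨j, hj⟩ := Nat.exists_eq_add_of_lt hc
      have hw : (2 : ℝ) ^ (w c) = 2 ^ k * 2 ^ (j + 1) := by
        rw [hj, ← pow_add]; congr 1
      have hjk : (2 : ℝ) ^ (j + 1) ≤ 2 ^ k := by
        apply pow_le_pow_right₀ (by norm_num)
        have := h4 c
        omega
      have h5 : (s c : ℝ) ≤ 2 ^ w c := by exact_mod_cast h2 c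
      rw [hw] at h5 ⊢
      have hj1 : (1 : ℝ) ≤ 2 ^ (j + 1) := one_le_pow₀ (by norm_num)
      set a : ℝ := 2 ^ (j + 1) with ha
      have ha0 : 0 < a := by positivity
      have h6 : (2 : ℝ) ^ k / (2 ^ k * a) = 1 / a := by field_simp
      rw [h6]
      have h7 : (s c : ℝ) / 2 ^ k ≤ a := by
        rw [div_le_iff₀ hk0]
        nlinarith
      have h8 : a - 1 ≤ 2 * g * (1 - 1 / a) := by
        have h9 : 1 - 1 / a = (a - 1) / a := by field_simp
        rw [h9, ← mul_div_assoc, le_div_iff₀ ha0]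
        nlinarith
      nlinarith
    · -- the other edges
      have hc' : w c ≤ k := not_lt.1 hc
      have hD : ∀ v, inc v c → tt w k v ≤ 1 - (s c : ℝ) / 2 ^ k := by
        intro v hv
        by_cases hcov : ∃ c', inc v c' ∧ k < w c'
        · obtain ⟨c', hi, hw'⟩ := hcov
          rw [tt_eq w h1 hi hw', tau, if_pos hw']
          have hne : c ≠ c' := by rintro rfl; exact hc hw'
          have h5 := h1 c c' (adj_of_inc hv hi hne)
          have h6 : (s c : ℝ) ≤ 2 ^ w c := by exact_mod_cast h2 c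
          have h7 : (2 : ℝ) ^ (w c) * 2 ^ (w c') ≤ 2 ^ k * 2 ^ k := by
            rw [← pow_add, ← pow_add]
            exact pow_le_pow_right₀ (by norm_num) (by omega)
          have h8 : (s c : ℝ) / 2 ^ k ≤ 2 ^ k / 2 ^ w c' := by
            rw [div_le_div_iff₀ hk0 (by positivity)]
            exact (mul_le_mul_of_nonneg_right h6 (by positivity)).trans h7
          linarith
        · push Not at hcov
          rw [tt_zero w hcov]
          have h6 : (s c : ℝ) ≤ 2 ^ k := by
            have h7 : s c ≤ 2 ^ k := (h2 c).trans (Nat.pow_le_pow_right (by norm_num) hc')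
            exact_mod_cast h7
          have h8 : (s c : ℝ) / 2 ^ k ≤ 1 := by
            rw [div_le_one hk0]; exact h6
          linarith
      have hi1 : inc c.1.1 c := Or.inl rfl
      have hi2 : inc c.1.2 c := Or.inr rfl
      have hd1 := hD _ hi1
      have hd2 := hD _ hi2
      rw [tau_zero w hc', mul_zero, sub_zero]
      split_ifs with h0
      · rcases h0 with h0 | h0
        · rw [h0, ht0]; rw [h0, ht0] at hd1; linarith
        · rw [h0, ht0]; rw [h0, ht0] at hd2; linarith
      · linarith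
  have hsum := Finset.sum_le_sum (fun c (_ : c ∈ (univ : Finset (PR (2 * g + 1)))) => key c)
  rw [Finset.sum_add_distrib, Finset.sum_sub_distrib, Finset.sum_sub_distrib, ← Finset.sum_div,
    sum_edges (tt w k), ← Finset.mul_sum, ← Finset.sum_div, ← Finset.sum_filter,
    sum_inc v0 (fun a b => (tt w k a + tt w k b) / 2) (fun a b => by rw [add_comm])] at hsum
  have hS : ∑ u ∈ univ.filter (fun u : Fin (2 * g + 1) => u ≠ v0), (tt w k u + tt w k v0) / 2 =
      (∑ v, tt w k v) / 2 := by
    rw [ht0, Finset.sum_div]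
    rw [Finset.sum_filter]
    refine Finset.sum_congr rfl (fun u _ => ?_)
    split_ifs with h
    · simp
    · push Not at h
      rw [h, ht0]; simp
  rw [hS] at hsum
  have hT := sum_tt (k := k) w
  rw [hT] at hsum
  simp only [Finset.sum_const, Finset.card_univ, nsmul_eq_mul, mul_one] at hsum
  push_cast at hsum
  have h5 : (∑ c, (s c : ℝ)) / 2 ^ k ≤ Fintype.card (PR (2 * g + 1)) := by
    nlinarith
  rw [div_le_iff₀ hk0] at h5
  have h6 : ((∑ c, s c : ℕ) : ℝ) ≤ ((2 ^ k * Fintype.card (PR (2 * g + 1)) : ℕ) : ℝ) := by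
    push_cast
    linarith
  exact_mod_cast h6

open Classical in
/-- a finite set in its span -/
lemma card_span {k : ℕ} (S : Finset (E k)) :
    S.card ≤ 2 ^ Module.finrank (ZMod 2) (Submodule.span (ZMod 2) (S : Set (E k))) := by
  have hW : Fintype.card (Submodule.span (ZMod 2) (S : Set (E k))) =
      2 ^ (Module.finrank (ZMod 2) (Submodule.span (ZMod 2) (S : Set (E k)))) := by
    have := Module.card_eq_pow_finrank (K := ZMod 2)
      (V := Submodule.span (ZMod 2) (S : Set (E k)))
    rw [this, ZMod.card]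
  rw [← hW, ← Finset.card_univ]
  refine Finset.card_le_card_of_injOn
    (fun u => if h : u ∈ Submodule.span (ZMod 2) (S : Set (E k)) then ⟨u, h⟩ else 0)
    (fun _ _ => Finset.mem_coe.2 (Finset.mem_univ _)) ?_
  intro a ha b hb hab
  have ha' : a ∈ Submodule.span (ZMod 2) (S : Set (E k)) := Submodule.subset_span ha
  have hb' : b ∈ Submodule.span (ZMod 2) (S : Set (E k)) := Submodule.subset_span hb
  simp only [dif_pos ha', dif_pos hb'] at hab
  exact congrArg Subtype.val hab

end CmbJ

open CmbJ Ext in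
/-- PJ-CMB: the largest unlinked set. -/
theorem cmbj : S_CMBJ := by
  intro g k ν J _ _ cls _ hg hν U hU
  classical
  let S : J → Finset (E k) := fun j =>
    (U.filter (fun i => i.1.1 = j)).image (fun i => (ph i.1.2.1, ph i.1.2.2))
  have hcard : ∀ j, (S j).card = (U.filter (fun i => i.1.1 = j)).card := by
    intro c
    refine Finset.card_image_of_injOn ?_
    intro i hi j hj hij
    have hi' : i.1.1 = c := (Finset.mem_filter.1 (Finset.mem_coe.1 hi)).2
    have hj' : j.1.1 = c := (Finset.mem_filter.1 (Finset.mem_coe.1 hj)).2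
    have h1 := ph_inj (congrArg Prod.fst hij)
    have h2 := ph_inj (congrArg Prod.snd hij)
    exact Subtype.ext (Prod.ext (hi'.trans hj'.symm) (Prod.ext h1 h2))
  have hU' : U.card = ∑ j, (S j).card := by
    rw [Finset.sum_congr rfl (fun c _ => hcard c)]
    exact Finset.card_eq_sum_card_fiberwise (fun _ _ => Finset.mem_coe.2 (Finset.mem_univ _))
  have hJ : Fintype.card J = ν * Fintype.card (PR (2 * g + 1)) := by
    rw [← Finset.card_univ, Finset.card_eq_sum_card_fiberwise (f := cls)
      (t := (univ : Finset (PR (2 * g + 1))))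
      (fun _ _ => Finset.mem_coe.2 (Finset.mem_univ _)), Finset.sum_congr rfl (fun c _ => hν c),
      Finset.sum_const, smul_eq_mul, Finset.card_univ, mul_comm]
  rcases Nat.eq_zero_or_pos ν with h0 | hνpos
  · rw [h0, zero_mul] at hJ
    have : IsEmpty J := Fintype.card_eq_zero_iff.1 hJ
    rw [hU', Finset.univ_eq_empty, Finset.sum_empty]
    exact Nat.zero_le _
  let fr : J → ℕ := fun j => Module.finrank (ZMod 2) (Submodule.span (ZMod 2) (S j : Set (E k)))
  let w : PR (2 * g + 1) → ℕ := fun c => (univ.filter (fun j => cls j = c)).sup fr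
  have hex : ∀ c, ∃ j, cls j = c ∧ w c = fr j := by
    intro c
    have hne : (univ.filter (fun j => cls j = c)).Nonempty := by
      rw [← Finset.card_pos, hν c]
      exact hνpos
    obtain ⟨j, hj, h⟩ := Finset.exists_mem_eq_sup _ hne fr
    exact ⟨j, (Finset.mem_filter.1 hj).2, h⟩
  have hle : ∀ j, fr j ≤ w (cls j) := fun j =>
    Finset.le_sup (f := fr) (Finset.mem_filter.2 ⟨Finset.mem_univ j, rfl⟩)
  have h1 : ∀ c c', adj c c' = true → w c + w c' ≤ 2 * k := by
    intro c c' had
    obtain ⟨j, hj, hwj⟩ := hex c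
    obtain ⟨j', hj', hwj'⟩ := hex c'
    rw [hwj, hwj']
    refine finrank_span (S j) (S j') ?_
    intro u hu v hv
    obtain ⟨i, hi, rfl⟩ := Finset.mem_image.1 hu
    obtain ⟨l, hl, rfl⟩ := Finset.mem_image.1 hv
    obtain ⟨hi1, hi2⟩ := Finset.mem_filter.1 hi
    obtain ⟨hl1, hl2⟩ := Finset.mem_filter.1 hl
    have hadj : adj c' c = true := by
      simp only [adj, Bool.and_eq_true, decide_eq_true_eq] at had ⊢
      refine ⟨had.1.symm, ?_⟩
      rcases had.2 with h | h | h | h
      · exact Or.inl h.symm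
      · exact Or.inr (Or.inr (Or.inl h.symm))
      · exact Or.inr (Or.inl h.symm)
      · exact Or.inr (Or.inr (Or.inr h.symm))
    have h := hU i hi1 l hl1
    simp only [LV, hi2, hl2, hj, hj', had, hadj, Bool.true_and, dtp_eq] at h
    have h' := dec_eq _ _ h
    show ph i.1.2.1 ⬝ᵥ ph l.1.2.2 + ph l.1.2.1 ⬝ᵥ ph i.1.2.2 = 0
    rw [h', add_self_zero]
  have h4 : ∀ c, w c ≤ 2 * k := by
    intro c
    obtain ⟨j, _, hwj⟩ := hex c
    rw [hwj, ← finrank_E k]
    exact Submodule.finrank_le _
  have hm := main_comb g k hg w (fun c => 2 ^ w c) h1 (fun c => le_rfl) h4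
  calc U.card = ∑ j, (S j).card := hU'
    _ ≤ ∑ j, 2 ^ w (cls j) := by
        refine Finset.sum_le_sum fun j _ => ?_
        exact (card_span (S j)).trans (Nat.pow_le_pow_right (by norm_num) (hle j))
    _ = ∑ c, ν * 2 ^ w c := by
        rw [← Finset.sum_fiberwise_of_maps_to (g := cls)
          (t := (univ : Finset (PR (2 * g + 1)))) (fun _ _ => Finset.mem_univ _)]
        refine Finset.sum_congr rfl fun c _ => ?_
        rw [Finset.sum_congr rfl (g := fun _ => 2 ^ w c)
          (fun j hj => by rw [(Finset.mem_filter.1 hj).2]), Finset.sum_const, hν c, smul_eq_mul]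
    _ = ν * ∑ c, 2 ^ w c := by rw [Finset.mul_sum]
    _ ≤ ν * (2 ^ k * Fintype.card (PR (2 * g + 1))) := Nat.mul_le_mul_left _ hm
    _ = 2 ^ k * Fintype.card J := by rw [hJ]; ring

end Pool.Agent.TH344.PJ
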