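import Mathlib
import Pool.Agent.TH344.PJ.Stm
import Pool.Agent.TH841.PT.Cnt3G

/-!
# Project PJ: the counting lemma

Follows `Pool/Agent/TH841/PT/Prt.lean`, `Cnt3.lean`, `Cnt3G.lean`.
-/

set_option autoImplicit false
set_option linter.unusedSectionVars false

namespace Pool.Agent.TH344.PJ

open Finset Polynomial Pool.Agent.W262.RK Pool.Agent.W307.RT Pool.Agent.W307.RS
open Pool.Agent.TH841.PT Pool.Agent.TH344.JG

open Pool.Agent.H474R2.PG (rho)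

namespace Cnt

section

variable {J : Type} [Fintype J] [DecidableEq J] {n : ℕ}

lemma gp_of {κ : PR n → ℤ} {f : J → ℤ[X]} {z c : ℕ} (h : GoodP κ f z c) :
    Gp (fun _ => 1) f z c :=
  ⟨h.two, h.four, h.one, fun _ hp _ _ h5 => (Nat.prime_iff_prime_int.1 hp).not_dvd_one h5,
    h.pair, h.good⟩

lemma prJ_pow {u : Fin n → ℤ[X]} {cls : J → PR n} {f : J → ℤ[X]} {z : ℕ} {t : ℤ}
    (h0 : ∀ j, (f j).eval t ≠ 0) (i : J × Bool) {p : ℕ} (hp : p.Prime) (hz : z < p) {k : ℕ}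
    (hk : k ≠ 0) : (p : ℤ) ^ k ∣ prJ u cls f z t i ↔
      (p : ℤ) ^ k ∣ (f i.1).eval t ∧ tyJ u cls p t i.1 = i.2 := by
  have h1 : ∀ x : ℤ, (p : ℤ) ^ k ∣ x ↔ p ^ k ∣ x.natAbs := by
    intro x
    rw [← Int.natCast_dvd]
    push_cast
    rfl
  unfold prJ
  rw [h1, h1, Int.natAbs_natCast]
  by_cases hty : tyJ u cls p t i.1 = i.2
  · rw [partN_pow (Int.natAbs_ne_zero.2 (h0 _)) hp ⟨hz, hty⟩]
    simp [hty]
  · constructor
    · intro h2
      exact absurd (partN_of hp ((dvd_pow_self p hk).trans h2)).2 hty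
    · intro h2
      exact absurd h2.2 hty

lemma prJ_dvd {u : Fin n → ℤ[X]} {cls : J → PR n} {f : J → ℤ[X]} {z : ℕ} {t : ℤ}
    (h0 : ∀ j, (f j).eval t ≠ 0) (i : J × Bool) {p : ℕ} (hp : p.Prime) (hz : z < p) :
    (p : ℤ) ∣ prJ u cls f z t i ↔ (p : ℤ) ∣ (f i.1).eval t ∧ tyJ u cls p t i.1 = i.2 := by
  have := prJ_pow (u := u) (cls := cls) h0 i hp hz one_ne_zero
  rwa [pow_one] at this

lemma prJ_dvd_self {u : Fin n → ℤ[X]} {cls : J → PR n} {f : J → ℤ[X]} {z : ℕ} {t : ℤ}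
    (h0 : ∀ j, (f j).eval t ≠ 0) (i : J × Bool) : prJ u cls f z t i ∣ (f i.1).eval t := by
  unfold prJ
  rw [Int.natCast_dvd]
  conv_rhs => rw [← partN_mul (Int.natAbs_ne_zero.2 (h0 i.1))
    (fun p => z < p ∧ tyJ u cls p t i.1 = i.2)]
  exact Dvd.intro _ rfl

lemma S1_prodJ {u : Fin n → ℤ[X]} {cls : J → PR n} {f : J → ℤ[X]} {z : ℕ} {t : ℤ}
    (h0 : ∀ j, (f j).eval t ≠ 0) (y : ℕ) (j : J) :
    ∏ θ : Bool, S1 z y (prJ u cls f z t) (j, θ) = S1 z y (fun l => (f l).eval t) j := by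
  unfold S1
  rw [← prod_fiberwise (s := (PS z y).filter (fun p : ℕ => (p : ℤ) ∣ (f j).eval t ∧
    ¬ (p : ℤ) ^ 2 ∣ (f j).eval t)) (g := fun p => tyJ u cls p t j)]
  refine prod_congr rfl fun θ _ => ?_
  refine prod_congr ?_ fun _ _ => rfl
  ext p
  rw [mem_filter, mem_filter, mem_filter]
  constructor
  · rintro ⟨h1, h2, h3⟩
    have h4 := mem_PS'.1 h1
    rw [prJ_dvd h0 _ h4.2 h4.1.1] at h2
    rw [prJ_pow h0 _ h4.2 h4.1.1 two_ne_zero] at h3
    exact ⟨⟨h1, h2.1, fun h5 => h3 ⟨h5, h2.2⟩⟩, h2.2⟩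
  · rintro ⟨⟨h1, h2, h3⟩, h5⟩
    have h4 := mem_PS'.1 h1
    rw [prJ_dvd h0 _ h4.2 h4.1.1, prJ_pow h0 _ h4.2 h4.1.1 two_ne_zero]
    exact ⟨h1, ⟨h2, h5⟩, fun h6 => h3 h6.1⟩

lemma S2_prodJ {u : Fin n → ℤ[X]} {cls : J → PR n} {f : J → ℤ[X]} {z : ℕ} {t : ℤ}
    (h0 : ∀ j, (f j).eval t ≠ 0) (y : ℕ) (j : J) :
    ∏ θ : Bool, S2 z y (prJ u cls f z t) (j, θ) = S2 z y (fun l => (f l).eval t) j := by
  unfold S2
  rw [← prod_fiberwise (s := (PS z y).filter (fun p : ℕ => (p : ℤ) ^ 2 ∣ (f j).eval t))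
    (g := fun p => tyJ u cls p t j)]
  refine prod_congr rfl fun θ _ => ?_
  refine prod_congr ?_ fun _ _ => rfl
  ext p
  rw [mem_filter, mem_filter, mem_filter]
  constructor
  · rintro ⟨h1, h2⟩
    have h4 := mem_PS'.1 h1
    rw [prJ_pow h0 _ h4.2 h4.1.1 two_ne_zero] at h2
    exact ⟨⟨h1, h2.1⟩, h2.2⟩
  · rintro ⟨⟨h1, h2⟩, h5⟩
    have h4 := mem_PS'.1 h1
    rw [prJ_pow h0 _ h4.2 h4.1.1 two_ne_zero]
    exact ⟨h1, h2, h5⟩

lemma S1_totJ {u : Fin n → ℤ[X]} {κ : PR n → ℤ} {cls : J → PR n} {f : J → ℤ[X]} {z c : ℕ}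
    (h : GoodP κ f z c) {t : ℤ} (h0 : ∀ j, (f j).eval t ≠ 0) (y : ℕ) :
    S1 z y (fun _ : Unit => (∏ j, f j).eval t) () = ∏ i, S1 z y (prJ u cls f z t) i := by
  rw [S1_all (gp_of h), Fintype.prod_prod_type]
  exact prod_congr rfl fun j _ => (S1_prodJ h0 y j).symm

lemma S2_totJ {u : Fin n → ℤ[X]} {κ : PR n → ℤ} {cls : J → PR n} {f : J → ℤ[X]} {z c : ℕ}
    (h : GoodP κ f z c) {t : ℤ} (h0 : ∀ j, (f j).eval t ≠ 0) (y : ℕ) :
    S2 z y (fun _ : Unit => (∏ j, f j).eval t) () = ∏ i, S2 z y (prJ u cls f z t) i := by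
  rw [S2_all (gp_of h), Fintype.prod_prod_type]
  exact prod_congr rfl fun j _ => (S2_prodJ h0 y j).symm

lemma tyJ_period (u : Fin n → ℤ[X]) (cls : J → PR n) (p : ℕ) (t : ℤ) (j : J) :
    tyJ u cls p (t + p) j = tyJ u cls p t j := by
  unfold tyJ
  rw [jac_period]

/-- the polynomials and types at `t` -/
noncomputable def tauJ (u : Fin n → ℤ[X]) (cls : J → PR n) (f : J → ℤ[X]) (p : ℕ) (t : ℤ) :
    Finset (J × Bool) :=
  univ.filter (fun i => (p : ℤ) ∣ (f i.1).eval t ∧ tyJ u cls p t i.1 = i.2)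

/-- the indices of the primes -/
def EstJ (s v w : J × Bool → ℕ) (p : ℕ) : Finset (J × Bool) :=
  univ.filter (fun i => p ∣ s i * v i * w i)

lemma tauJ_period (u : Fin n → ℤ[X]) (cls : J → PR n) (f : J → ℤ[X]) (p : ℕ) (t : ℤ) :
    tauJ u cls f p (t + p) = tauJ u cls f p t := by
  unfold tauJ
  ext i
  rw [mem_filter, mem_filter, eval_dvd_period, tyJ_period]

/-- the number of the roots with the given index set -/
lemma rhoT_leJ {u : Fin n → ℤ[X]} {cls : J → PR n} {f : J → ℤ[X]} {z : ℕ}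
    {p : ℕ} (hp : p.Prime) (hz : z < p) (E : Finset (J × Bool)) {i : J × Bool} (hi : i ∈ E) :
    (rhoT (∏ j, f j) (tauJ u cls f) p E : ℝ) ≤ rJ u cls f z i p := by
  unfold rhoT rJ
  rw [if_pos ⟨hp, hz⟩]
  rw [Nat.cast_le]
  apply card_le_card
  intro x hx
  simp only [mem_filter] at hx ⊢
  obtain ⟨h1, h2, h3⟩ := hx
  have h4 : i ∈ tauJ u cls f p x := by rw [h3]; exact hi
  exact ⟨h1, (mem_filter.1 h4).2⟩

lemma rhoT_le_cJ {u : Fin n → ℤ[X]} {κ : PR n → ℤ} {cls : J → PR n} {f : J → ℤ[X]} {z c : ℕ}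
    (h : GoodP κ f z c) {p : ℕ} (hp : p.Prime) (hz : z < p) (E : Finset (J × Bool)) :
    (rhoT (∏ j, f j) (tauJ u cls f) p E : ℝ) ≤ c := by
  have h1 := (h.good p hp hz).1
  have h2 : rhoT (∏ j, f j) (tauJ u cls f) p E ≤ rho (∏ j, f j) p := by
    unfold rhoT rho
    refine card_le_card fun x hx => ?_
    simp only [mem_filter] at hx ⊢
    exact ⟨hx.1, hx.2.1⟩
  exact_mod_cast h2.trans h1

/-- the element belongs to the set of the counting lemma -/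
lemma mem_SetHJ {u : Fin n → ℤ[X]} {κ : PR n → ℤ} {cls : J → PR n} {f : J → ℤ[X]} {G : ℤ[X]}
    {z c : ℕ} (h : GoodP κ f z c)
    {N : ℤ} {X y Y : ℕ} (hzy : z < y) {s v w' : J × Bool → ℕ} (hs : s ∈ Tup (J × Bool) z y)
    (hv : v ∈ Tup (J × Bool) z y) (hu : w' ∈ Tup (J × Bool) y Y) {t : ℕ}
    (ht : t ∈ Icc 1 X) (h0 : ∀ j, (f j).eval (N + (t : ℤ)) ≠ 0)
    (h1 : S1 z y (prJ u cls f z (N + (t : ℤ))) = s)
    (h2 : S2 z y (prJ u cls f z (N + (t : ℤ))) = v)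
    (h3 : ∀ i, (w' i : ℤ) ∣ prJ u cls f z (N + (t : ℤ)) i)
    (h4 : ∀ p ∈ PS z y, ¬ (p : ℤ) ∣ G.eval (N + (t : ℤ))) :
    t ∈ SetH (∏ j, f j) G (tauJ u cls f) (fun _ _ => 1) z y N X (∏ i, s i) (∏ i, v i)
      (∏ i, w' i) (EstJ s v w') ∅ ∅ := by
  set w : ℤ := N + (t : ℤ) with hw
  have hS1 : ∀ i p, p.Prime → p ∣ s i → z < p ∧ p ≤ y ∧ (p : ℤ) ∣ prJ u cls f z w i ∧
      ¬ (p : ℤ) ^ 2 ∣ prJ u cls f z w i := by
    intro i p hp hpi
    obtain ⟨h5, h6⟩ := Tup_prime hs hp hpi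
    rw [← h1] at hpi
    unfold S1 at hpi
    obtain ⟨q, hq, hpq⟩ := (hp.prime.dvd_finsetProd_iff _).1 hpi
    have hq' := mem_filter.1 hq
    have h7 := (Nat.prime_dvd_prime_iff_eq hp (mem_PS'.1 hq'.1).2).1 hpq
    rw [h7]
    rw [h7] at h5 h6
    exact ⟨h5, h6, hq'.2⟩
  have hS2 : ∀ i p, p.Prime → p ∣ v i → z < p ∧ (p : ℤ) ∣ prJ u cls f z w i := by
    intro i p hp hpi
    obtain ⟨h5, h6⟩ := Tup_prime hv hp hpi
    rw [← h2] at hpi
    unfold S2 at hpi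
    obtain ⟨q, hq, hpq⟩ := (hp.prime.dvd_finsetProd_iff _).1 hpi
    have hq' := mem_filter.1 hq
    have h7 := (Nat.prime_dvd_prime_iff_eq hp (mem_PS'.1 hq'.1).2).1 hpq
    rw [h7]
    rw [h7] at h5
    exact ⟨h5, (dvd_pow_self _ two_ne_zero).trans hq'.2⟩
  have hU : ∀ i p, p.Prime → p ∣ w' i → z < p ∧ (p : ℤ) ∣ prJ u cls f z w i := by
    intro i p hp hpi
    obtain ⟨h5, h6⟩ := Tup_prime hu hp hpi
    exact ⟨by omega, (Int.natCast_dvd_natCast.2 hpi).trans (h3 i)⟩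
  have hany : ∀ i p, p.Prime → p ∣ s i * v i * w' i → z < p ∧ (p : ℤ) ∣ prJ u cls f z w i := by
    intro i p hp hpi
    rcases hp.dvd_mul.1 hpi with h5 | h5
    · rcases hp.dvd_mul.1 h5 with h6 | h6
      · exact ⟨(hS1 i p hp h6).1, (hS1 i p hp h6).2.2.1⟩
      · exact hS2 i p hp h6
    · exact hU i p hp h5
  unfold SetH
  simp only [mem_filter]
  refine ⟨ht, ?_, ?_, ?_, ?_, ?_, h4⟩
  · rw [S1_totJ h h0 y, h1]
  · rw [S2_totJ h h0 y, h2]
  · push_cast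
    refine Finset.prod_dvd_of_coprime (fun i _ j _ hij => ?_) fun i _ => ?_
    · have := (Pool.Agent.W405.RK2.mem_Tup.1 hu).2 i j hij
      exact (Nat.isCoprime_iff_coprime).2 this
    · rw [eval_prod]
      exact ((h3 i).trans (prJ_dvd_self h0 i)).trans
        (dvd_prod_of_mem (fun j => (f j).eval w) (mem_univ i.1))
  · intro p hp hpd
    have h5 : ∃ i, p ∣ s i * v i * w' i := by
      rw [← prod_mul_distrib, ← prod_mul_distrib] at hpd
      obtain ⟨i, _, hi⟩ := (hp.prime.dvd_finsetProd_iff _).1 hpd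
      exact ⟨i, hi⟩
    obtain ⟨i0, hi0⟩ := h5
    obtain ⟨hz, hd⟩ := hany i0 p hp hi0
    rw [prJ_dvd h0 i0 hp hz] at hd
    ext i
    unfold tauJ EstJ
    rw [mem_filter, mem_filter]
    constructor
    · rintro ⟨_, h5, h6⟩
      refine ⟨mem_univ _, ?_⟩
      have h7 : i = i0 := by
        by_cases hj : i.1 = i0.1
        · refine Prod.ext hj ?_
          rw [← h6, ← hd.2, hj]
        · exact absurd ⟨h5, hd.1⟩ (h.pair p hp hz _ _ hj w)
      rw [h7]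
      exact hi0
    · rintro ⟨_, h5⟩
      have h6 := (hany i p hp h5).2
      rw [prJ_dvd h0 i hp hz] at h6
      exact ⟨mem_univ _, h6⟩
  · intro p hp3
    exact absurd hp3 (notMem_empty p)

end

end Cnt

open Cnt

/-- **the counting lemma** -/
theorem cntj_of (hcnt : CNTH) : S_CNTJ := by
  intro n J _ _ u κ cls f z c G h hG2
  obtain ⟨C, K, y0, hC0, hK, hC⟩ := hcnt c z h.two
  refine ⟨C, K, y0, hC0, hK, fun N X y Y hy0 hzy hyK s v w hs hv hu h8 T' hT' => ?_⟩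
  have hz2 := h.two
  have h8' : ((∏ i, s i) * (∏ i, v i) * ∏ i, w i) ^ 8 ≤ X := by
    rwa [← prod_mul_distrib, ← prod_mul_distrib]
  have hmain := hC (∏ j, f j) G h.good hG2 (Finset (J × Bool)) (tauJ u cls f) (fun _ _ => 1)
    (fun p _ _ t => tauJ_period u cls f p t)
    (fun p hp _ t => ⟨rfl, Or.inl rfl⟩) N X y Y hy0 hzy hyK
    (∏ i, s i) (∏ i, v i) (∏ i, w i) (Pool.Agent.TH841.PT.Tup_prod_dvd hs) (Pool.Agent.TH841.PT.Tup_prod_dvd hv) (Pool.Agent.TH841.PT.Tup_prod_dvd hu) h8'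
    (EstJ s v w) ∅ ∅ (empty_subset _)
  have hsub : T' ⊆ SetH (∏ j, f j) G (tauJ u cls f) (fun _ _ => 1) z y N X (∏ i, s i)
      (∏ i, v i) (∏ i, w i) (EstJ s v w) ∅ ∅ := by
    intro t ht
    obtain ⟨h1, h2, h3, h4, h5, h6⟩ := hT' t ht
    exact mem_SetHJ h hzy hs hv hu h1 h2 h3 h4 h5 h6
  rw [card_empty, pow_zero, mul_one] at hmain
  have hcard : (T'.card : ℝ) ≤ _ := le_trans (by exact_mod_cast card_le_card hsub) hmain
  refine hcard.trans ?_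
  have hden : ∀ {y' : ℕ} {s' : J × Bool → ℕ} (_ : s' ∈ Tup (J × Bool) z y') (i : J × Bool)
      (p : ℕ), p ∈ (s' i).primeFactors → (0 : ℝ) < (p : ℝ) - c := by
    intro y' s' hs' i p hp
    have h1 := Tup_prime hs' (Nat.prime_of_mem_primeFactors hp) (Nat.dvd_of_mem_primeFactors hp)
    have h2 : (c : ℝ) < p := by exact_mod_cast (by omega : c < p)
    linarith
  have e1 : ∏ p ∈ (∏ i, s i).primeFactors,
      (rhoT (∏ j, f j) (tauJ u cls f) p (EstJ s v w p) : ℝ) / ((p : ℝ) - c) ≤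
      ∏ i, gp (rJ u cls f z i) c (s i) := by
    rw [prod_primes hs]
    refine prod_le_prod (fun i _ => prod_nonneg fun p hp => div_nonneg (Nat.cast_nonneg _)
      (hden hs i p hp).le) fun i _ => ?_
    unfold gp
    refine prod_le_prod (fun p hp => div_nonneg (Nat.cast_nonneg _)
      (hden hs i p hp).le) fun p hp => ?_
    have hpp := Nat.prime_of_mem_primeFactors hp
    have hpd := Nat.dvd_of_mem_primeFactors hp
    refine div_le_div_of_nonneg_right (rhoT_leJ hpp (Tup_prime hs hpp hpd).1 _ ?_)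
      (hden hs i p hp).le
    exact mem_filter.2 ⟨mem_univ _, (hpd.mul_right _).mul_right _⟩
  have e2 : (∏ p ∈ (∏ i, v i).primeFactors,
      (rhoT (∏ j, f j) (tauJ u cls f) p (EstJ s v w p) : ℝ) / ((p : ℝ) - c)) /
        ((∏ i, v i : ℕ) : ℝ) ≤ ∏ i, gp (rJ u cls f z i) c (v i) / v i := by
    rw [prod_primes hv, Nat.cast_prod, ← prod_div_distrib]
    refine prod_le_prod (fun i _ => div_nonneg (prod_nonneg fun p hp =>
      div_nonneg (Nat.cast_nonneg _) (hden hv i p hp).le) (Nat.cast_nonneg _)) fun i _ => ?_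
    refine div_le_div_of_nonneg_right ?_ (Nat.cast_nonneg _)
    unfold gp
    refine prod_le_prod (fun p hp => div_nonneg (Nat.cast_nonneg _)
      (hden hv i p hp).le) fun p hp => ?_
    have hpp := Nat.prime_of_mem_primeFactors hp
    have hpd := Nat.dvd_of_mem_primeFactors hp
    refine div_le_div_of_nonneg_right (rhoT_leJ hpp (Tup_prime hv hpp hpd).1 _ ?_)
      (hden hv i p hp).le
    exact mem_filter.2 ⟨mem_univ _, (hpd.mul_left _).mul_right _⟩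
  have e3 : (∏ p ∈ (∏ i, w i).primeFactors,
      (rhoT (∏ j, f j) (tauJ u cls f) p (EstJ s v w p) : ℝ)) / ((∏ i, w i : ℕ) : ℝ) ≤
      ∏ i, (c : ℝ) ^ (w i).primeFactors.card / w i := by
    rw [prod_primes hu, Nat.cast_prod, ← prod_div_distrib]
    refine prod_le_prod (fun i _ => div_nonneg (prod_nonneg fun p hp =>
      Nat.cast_nonneg _) (Nat.cast_nonneg _)) fun i _ => ?_
    refine div_le_div_of_nonneg_right ?_ (Nat.cast_nonneg _)
    rw [← prod_const]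
    refine prod_le_prod (fun p hp => Nat.cast_nonneg _) fun p hp => ?_
    have hpp := Nat.prime_of_mem_primeFactors hp
    have hpd := Nat.dvd_of_mem_primeFactors hp
    have h1 := (Tup_prime hu hpp hpd).1
    exact rhoT_le_cJ h hpp (by omega) _
  have n1 : 0 ≤ ∏ p ∈ (∏ i, s i).primeFactors,
      (rhoT (∏ j, f j) (tauJ u cls f) p (EstJ s v w p) : ℝ) / ((p : ℝ) - c) := by
    rw [prod_primes hs]
    exact prod_nonneg fun i _ => prod_nonneg fun p hp => div_nonneg (Nat.cast_nonneg _)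
      (hden hs i p hp).le
  have n2 : 0 ≤ (∏ p ∈ (∏ i, v i).primeFactors,
      (rhoT (∏ j, f j) (tauJ u cls f) p (EstJ s v w p) : ℝ) / ((p : ℝ) - c)) /
        ((∏ i, v i : ℕ) : ℝ) := by
    rw [prod_primes hv]
    exact div_nonneg (prod_nonneg fun i _ => prod_nonneg fun p hp =>
      div_nonneg (Nat.cast_nonneg _) (hden hv i p hp).le) (Nat.cast_nonneg _)
  have n3 : 0 ≤ (∏ p ∈ (∏ i, w i).primeFactors,
      (rhoT (∏ j, f j) (tauJ u cls f) p (EstJ s v w p) : ℝ)) / ((∏ i, w i : ℕ) : ℝ) :=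
    div_nonneg (prod_nonneg fun _ _ => Nat.cast_nonneg _) (Nat.cast_nonneg _)
  refine mul_le_mul_of_nonneg_right ?_ (Real.exp_pos _).le
  refine mul_le_mul_of_nonneg_right ?_ (Real.exp_pos _).le
  refine mul_le_mul ?_ e3 n3 ?_
  · refine mul_le_mul ?_ e2 n2 ?_
    · exact mul_le_mul_of_nonneg_left e1 (by positivity)
    · exact mul_nonneg (by positivity) (n1.trans e1)
  · exact mul_nonneg (mul_nonneg (by positivity) (n1.trans e1)) (n2.trans e2)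

end Pool.Agent.TH344.PJ
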