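import Mathlib
import Pool.Agent.TH344.PJ.Stm
import Pool.Agent.TH841.PT.Mak3
import Pool.Agent.TH841.PT.Fin3
import Pool.Agent.TH841.PT.Fin1
import Pool.Agent.TH841.PT.Merge
import Pool.Agent.TH841.PT.GDP

/-!
# Project PJ: the main average
-/

set_option autoImplicit false

namespace Pool.Agent.TH344.PJ

open Finset Polynomial Pool.Agent.W262.RK Pool.Agent.W307.RT Pool.Agent.W307.RS
open Pool.Agent.TH841.PT Pool.Agent.TH344.JG

open Pool.Agent.H474R2.PG (rho)

section

variable {J : Type} [Fintype J] [DecidableEq J] {n : ℕ}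

omit [DecidableEq J] in
lemma GoodP.gp' {κ : PR n → ℤ} {f : J → ℤ[X]} {z c : ℕ} (h : GoodP κ f z c) :
    Gp (fun _ => (1 : ℤ)) f z c :=
  ⟨h.two, h.four, h.one, fun _ hp _ _ hd => (Nat.prime_iff_prime_int.1 hp).not_dvd_one hd,
    h.pair, h.good⟩

/-- the existence of `z` -/
lemma exists_GoodP {f : J → ℤ[X]} (h : Irr f) {κ : PR n → ℤ} (hκ : ∀ c, κ c ≠ 0)
    (c : ℕ) (hc : (∏ j, f j).natDegree + 1 ≤ c) :
    ∃ z0 : ℕ, ∀ z, z0 ≤ z → GoodP κ f z c := by
  obtain ⟨z1, hz1⟩ := exists_Gp GDPf.gdp h (a := fun _ => (1 : ℤ)) (fun _ => one_ne_zero) c hc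
  refine ⟨z1 + ∑ c, (κ c).natAbs, fun z hz => ?_⟩
  have hG := hz1 z (by omega)
  refine ⟨hG.two, hG.four, hG.one, ?_, hG.pair, hG.good⟩
  intro p hp hzp k hk
  have h1 := Nat.le_of_dvd (Int.natAbs_pos.2 (hκ k)) (Int.natCast_dvd.1 hk)
  have h2 := single_le_sum (f := fun k => (κ k).natAbs) (fun _ _ => Nat.zero_le _) (mem_univ k)
  omega

omit [DecidableEq J] in
lemma fac_sub {u : Fin n → ℤ[X]} {κ : PR n → ℤ} {cls : J → PR n} {f : J → ℤ[X]} {ν : ℕ}
    (hP : Pen u κ cls f ν) (j : J) (l : Fin n) (h1 : l ≠ (cls j).1.1) (h2 : l ≠ (cls j).1.2) :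
    ∃ (c' : PR n) (b : ℤ) (s : Finset J), (b = κ c' ∨ b = -κ c') ∧ j ∉ s ∧
      u (cls j).1.1 - u l = C b * ∏ m ∈ s, f m := by
  rcases lt_or_gt_of_ne h1 with hlt | hgt
  · refine ⟨⟨(l, (cls j).1.1), hlt⟩, -κ ⟨(l, (cls j).1.1), hlt⟩,
      univ.filter (fun m => cls m = ⟨(l, (cls j).1.1), hlt⟩), Or.inr rfl, ?_, ?_⟩
    · intro hj
      have h3 := (mem_filter.1 hj).2
      apply h1
      have h4 := congrArg (fun c : PR n => c.1.1) h3
      exact h4.symm
    · have h3 := hP.fac ⟨(l, (cls j).1.1), hlt⟩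
      simp only at h3
      rw [← neg_sub, h3, C_neg, neg_mul]
  · refine ⟨⟨((cls j).1.1, l), hgt⟩, κ ⟨((cls j).1.1, l), hgt⟩,
      univ.filter (fun m => cls m = ⟨((cls j).1.1, l), hgt⟩), Or.inl rfl, ?_, ?_⟩
    · intro hj
      have h3 := (mem_filter.1 hj).2
      apply h2
      have h4 := congrArg (fun c : PR n => c.1.2) h3
      exact h4.symm
    · exact hP.fac ⟨((cls j).1.1, l), hgt⟩

lemma sP_ndvd {u : Fin n → ℤ[X]} {κ : PR n → ℤ} {cls : J → PR n} {f : J → ℤ[X]} {ν z c : ℕ}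
    (hP : Pen u κ cls f ν) (h : GoodP κ f z c) {p : ℕ} (hp : p.Prime) (hz : z < p) {t : ℤ} {j : J}
    (hj : (p : ℤ) ∣ (f j).eval t) : ¬ (p : ℤ) ∣ (sP u (cls j)).eval t := by
  have hpi := Nat.prime_iff_prime_int.1 hp
  unfold sP
  rw [eval_prod]
  intro hd
  obtain ⟨l, hl, hd⟩ := (hpi.dvd_finsetProd_iff _).1 hd
  have hl' := (mem_filter.1 hl).2
  obtain ⟨c', b, s, hb, hjs, he⟩ := fac_sub hP j l hl'.1 hl'.2
  rw [he, eval_mul, eval_C] at hd
  rcases hpi.dvd_or_dvd hd with h3 | h3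
  · rcases hb with hb | hb
    · rw [hb] at h3
      exact h.const p hp hz c' h3
    · rw [hb, dvd_neg] at h3
      exact h.const p hp hz c' h3
  · obtain ⟨m, hm, h4⟩ := (dvd_prod_iff hp s f t).1 h3
    refine h.pair p hp hz j m ?_ t ⟨hj, h4⟩
    rintro rfl
    exact hjs hm

lemma sP_ndvdQ {u : Fin n → ℤ[X]} {κ : PR n → ℤ} {cls : J → PR n} {f : J → ℤ[X]} {ν : ℕ}
    (hP : Pen u κ cls f ν) (j : J) : ¬ mQ (f j) ∣ mQ (sP u (cls j)) := by
  have hp := (hP.irr.irrQ j).prime
  unfold sP mQ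
  rw [Polynomial.map_prod]
  intro hd
  obtain ⟨l, hl, hd⟩ := (hp.dvd_finsetProd_iff _).1 hd
  have hl' := (mem_filter.1 hl).2
  obtain ⟨c', b, s, hb, hjs, he⟩ := fac_sub hP j l hl'.1 hl'.2
  rw [he] at hd
  have hb0 : b ≠ 0 := by
    rcases hb with hb | hb
    · rw [hb]; exact hP.ne c'
    · rw [hb]; exact neg_ne_zero.2 (hP.ne c')
  exact hP.irr.ndvd_prod hb0 hjs hd

/-- the second polynomial -/
noncomputable def gq (u : Fin n → ℤ[X]) (cls : J → PR n) (j : J) (b : Bool) : ℤ[X] :=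
  if b = true then sP u (cls j) else 1

lemma gq_ndvdQ {u : Fin n → ℤ[X]} {κ : PR n → ℤ} {cls : J → PR n} {f : J → ℤ[X]} {ν : ℕ}
    (hP : Pen u κ cls f ν) (j : J) (b : Bool) : ¬ mQ (f j) ∣ mQ (gq u cls j b) := by
  unfold gq
  split_ifs
  · exact sP_ndvdQ hP j
  · unfold mQ
    rw [Polynomial.map_one]
    exact fun hd => (hP.irr.irrQ j).not_isUnit (isUnit_of_dvd_one hd)

lemma sum_ty {u : Fin n → ℤ[X]} {κ : PR n → ℤ} {cls : J → PR n} {f : J → ℤ[X]} {ν z c : ℕ}
    (hP : Pen u κ cls f ν) (h : GoodP κ f z c) (j : J) (b : Bool) (p : ℕ) :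
    rJ u cls f z (j, false) p + (if b = true then -1 else 1) * rJ u cls f z (j, true) p =
      if p.Prime ∧ z < p then rhoc (f j) (gq u cls j b) p else 0 := by
  unfold rJ
  by_cases hc : p.Prime ∧ z < p
  · simp only [if_pos hc]
    have e : ∀ θ : Bool, ((((range p).filter (fun x : ℕ => (p : ℤ) ∣ (f j).eval (x : ℤ) ∧
        tyJ u cls p x j = θ)).card : ℕ) : ℝ) =
        ∑ x ∈ (range p).filter (fun x : ℕ => (p : ℤ) ∣ (f j).eval (x : ℤ)),
          (if tyJ u cls p x j = θ then (1 : ℝ) else 0) := by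
      intro θ
      rw [← filter_filter, card_filter]
      push_cast
      rfl
    rw [e, e, mul_sum, ← sum_add_distrib]
    unfold rhoc
    refine sum_congr rfl fun x hx => ?_
    have hx' := (mem_filter.1 hx).2
    have hnd := sP_ndvd hP h hc.1 hc.2 hx'
    unfold gq
    cases b
    · simp only [Bool.false_eq_true, if_false, one_mul, eval_one]
      have h1 : Jr 1 p = 1 := by simp [Jr]
      rw [h1]
      cases tyJ u cls p x j <;> simp
    · simp only [if_true]
      unfold tyJ Jr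
      have : Fact p.Prime := ⟨hc.1⟩
      have h2 : jacobiSym ((sP u (cls j)).eval (x : ℤ)) p = 1 ∨
          jacobiSym ((sP u (cls j)).eval (x : ℤ)) p = -1 := by
        rw [← jacobiSym.legendreSym.to_jacobiSym]
        apply legendreSym.eq_one_or_neg_one
        intro h3
        exact hnd ((ZMod.intCast_zmod_eq_zero_iff_dvd _ _).1 h3)
      rcases h2 with h2 | h2
      · rw [h2]; norm_num
      · rw [h2]; norm_num
  · simp [if_neg hc]

end

/-- **the main average** -/
theorem makj_of (h1 : S_EXPJ) (h2 : S_CMBJ) : S_MAKJ := by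
  intro g k ν J _ _ u κ cls f hg hk hkg hν hP c hc
  have hats : ATS := ats
  have hmer : MERGE := MergeF.merge
  have htw : TWG := twg
  have hf := hP.irr
  obtain ⟨zg, hzg⟩ := exists_GoodP hf hP.ne c hc
  choose E0 zt hE0 hzt using fun i : IV J k (fun _ _ => true) =>
    htw (f i.1.1) (hf.irr _) (hf.deg _) (gq u cls i.1.1 (dtp i.1.2.1 i.1.2.2)) (gq_ndvdQ hP _ _)
  refine ⟨zg + univ.sup zt, fun z hz => ⟨hzg z (by omega), ?_⟩⟩
  have hG := hzg z (by omega)
  have hG' := hG.gp'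
  have hzt' : ∀ i, zt i ≤ z := fun i => (le_sup (f := zt) (mem_univ i)).trans (by omega)
  choose Ct hCt using fun i : IV J k (fun _ _ => true) => hzt i z (hzt' i)
  have hz4 := hG.four
  choose Cm hCm0 hCm using fun j : J => mert (hf.irr j) (hf.deg j) (z := z) (by omega)
  set Cs : ℝ := ∑ j, Cm j with hCs
  have hCs' : ∀ j, Cm j ≤ Cs := fun j => single_le_sum (f := Cm) (fun j _ => hCm0 j) (mem_univ j)
  have hCs0 : 0 ≤ Cs := sum_nonneg fun j _ => hCm0 j
  have hEs : ∀ i, E0 i ≤ ∑ i, E0 i := fun i =>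
    single_le_sum (f := E0) (fun j _ => hE0 j) (mem_univ i)
  have hCts : ∀ i, |Ct i| ≤ ∑ i, |Ct i| := fun i =>
    single_le_sum (f := fun i => |Ct i|) (fun j _ => abs_nonneg _) (mem_univ i)
  have hE0s : 0 ≤ ∑ i, E0 i := sum_nonneg fun i _ => hE0 i
  have hC0s : 0 ≤ ∑ i, |Ct i| := sum_nonneg fun i _ => abs_nonneg _
  have hll : ∀ y, z < y → 0 ≤ Real.log (Real.log y) := by
    intro y hy
    have h3 : (3 : ℝ) ≤ y := by exact_mod_cast (by omega : 3 ≤ y)
    apply Real.log_nonneg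
    rw [Real.le_log_iff_exp_le (by linarith)]
    have := Real.exp_one_lt_d9
    linarith
  set W : ℝ := 1 / 2 ^ k with hW
  have hW0 : 0 < W := by positivity
  have hW1 : W ≤ 1 := by
    rw [hW, div_le_one (by positivity)]
    exact one_le_pow₀ (by norm_num)
  set aw' : IV J k (fun _ _ => true) → ℕ → ℝ := fun i p =>
    (rJ u cls f z (i.1.1, false) p +
      (if dtp i.1.2.1 i.1.2.2 = true then -1 else 1) * rJ u cls f z (i.1.1, true) p) / 2 ^ k
    with haw
  have haw' : ∀ i p, aw' i p = if p.Prime ∧ z < p then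
      W * rhoc (f i.1.1) (gq u cls i.1.1 (dtp i.1.2.1 i.1.2.2)) p else 0 := by
    intro i p
    simp only [haw]
    rw [sum_ty hP hG]
    split_ifs
    · rw [hW]; ring
    · simp
  set bw' : IV J k (fun _ _ => true) → ℕ → ℝ := fun i p =>
    if p.Prime ∧ z < p then W * rho (f i.1.1) p else 0 with hbw
  have hSb : ∀ i y, Sp (bw' i) z y = W * Sp (fun p => rho (f i.1.1) p) z y := by
    intro i y
    unfold Sp
    rw [mul_sum]
    refine sum_congr rfl fun p hp => ?_
    have hp' := mem_filter.1 hp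
    simp only [hbw]
    rw [if_pos ⟨hp'.2, (mem_Ioc.1 hp'.1).1⟩]
    ring
  have hSl : ∀ j y, z < y → Sp (fun p => rho (f j) p) z y ≤ Real.log (Real.log y) + Cs ∧
      Real.log (Real.log y) - Cs ≤ Sp (fun p => rho (f j) p) z y := by
    intro j y hy
    have h1 := abs_le.1 (hCm j y hy)
    have h2 := hCs' j
    constructor <;> linarith [h1.1, h1.2]
  have hadj0 : ∀ c : PR (2 * g + 1), adj c c = false := by
    intro c
    simp [adj]
  have hadjs : ∀ c c' : PR (2 * g + 1), adj c c' = adj c' c := by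
    intro c c'
    unfold adj
    congr 1
    · simp [ne_comm]
    · rw [decide_eq_decide]
      constructor
      · rintro (h | h | h | h)
        · exact Or.inl h.symm
        · exact Or.inr (Or.inr (Or.inl h.symm))
        · exact Or.inr (Or.inl h.symm)
        · exact Or.inr (Or.inr (Or.inr h.symm))
      · rintro (h | h | h | h)
        · exact Or.inl h.symm
        · exact Or.inr (Or.inr (Or.inl h.symm))
        · exact Or.inr (Or.inl h.symm)
        · exact Or.inr (Or.inr (Or.inr h.symm))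
  obtain ⟨C, hC⟩ := atr_of hats hmer (2 * c) (by have := hG.one; omega)
    (IV J k (fun _ _ => true)) aw' bw'
    (LV (fun j l => adj (cls j) (cls l))) c z W (∑ i, |Ct i| + Cs) (∑ i, E0 i)
    (fun y => ∑ j, Sp (fun p => rho (f j) p) z y + 2 * (Fintype.card J * Cs))
    (by
      intro i p
      rw [haw']
      simp only [hbw]
      split_ifs with h3
      · rw [abs_mul, abs_of_pos hW0]
        refine ⟨mul_le_mul_of_nonneg_left (rhoc_abs _ _ _) hW0.le, ?_⟩
        have h4 : (rho (f i.1.1) p : ℝ) ≤ c := by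
          exact_mod_cast rho_le_prod hG' h3.1 h3.2 i.1.1
        have h5 : (0 : ℝ) ≤ rho (f i.1.1) p := Nat.cast_nonneg _
        push_cast
        nlinarith
      · refine ⟨by simp, by positivity⟩)
    (by
      intro i
      change (adj (cls i.1.1) (cls i.1.1) && dtp i.1.2.1 i.1.2.2) = false
      rw [hadj0]
      rfl)
    hG.two hW0 hE0s
    (by
      intro i y hy
      rw [hSb i]
      have h3 := (hSl i.1.1 y hy).2
      have h5 : W * (Real.log (Real.log y) - Cs) ≤
          W * Sp (fun p => rho (f i.1.1) p) z y :=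
        mul_le_mul_of_nonneg_left h3 hW0.le
      nlinarith)
    (by
      intro y hy U hU
      simp only [hSb]
      have h3 := h2 g k ν J cls hg hkg hP.card U hU
      have h4 : ∑ i ∈ U, W * Sp (fun p => rho (f i.1.1) p) z y ≤
          ∑ i ∈ U, W * (Real.log (Real.log y) + Cs) :=
        sum_le_sum fun i _ => mul_le_mul_of_nonneg_left (hSl i.1.1 y hy).1 hW0.le
      have h5 : ∑ j : J, (Real.log (Real.log y) - Cs) ≤ ∑ j, Sp (fun p => rho (f j) p) z y :=
        sum_le_sum fun j _ => (hSl j y hy).2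
      rw [sum_const, nsmul_eq_mul] at h4
      rw [sum_const, nsmul_eq_mul, card_univ] at h5
      have h6 : (U.card : ℝ) * W ≤ Fintype.card J := by
        have h7 : (U.card : ℝ) ≤ 2 ^ k * Fintype.card J := by exact_mod_cast h3
        rw [hW, mul_one_div, div_le_iff₀ (by positivity)]
        linarith
      have h8 : (U.card : ℝ) * W * (Real.log (Real.log y) + Cs) ≤
          Fintype.card J * (Real.log (Real.log y) + Cs) :=
        mul_le_mul_of_nonneg_right h6 (by have := hll y hy; positivity)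
      linarith)
    (by
      intro i y r e hy hr hsq hpr
      have h3 := hCt i y r e hy hr hsq hpr
      have hlr := loglog_nonneg (by omega : 2 ≤ z) hr hpr
      have h4 : ∑ p ∈ PS z y, aw' i p * (Jr p r * x4 e p) / (p : ℝ) =
          W * ∑ p ∈ PS z y, rhoc (f i.1.1) (gq u cls i.1.1 (dtp i.1.2.1 i.1.2.2)) p *
            (Jr p r * x4 e p) / (p : ℝ) := by
        rw [mul_sum]
        refine sum_congr rfl fun p hp => ?_
        have hp' := mem_filter.1 hp
        rw [haw', if_pos ⟨hp'.2, (mem_Ioc.1 hp'.1).1⟩]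
        ring
      rw [h4, hSb i]
      have h5 : ∑ p ∈ PS z y, rhoc (f i.1.1) (gq u cls i.1.1 (dtp i.1.2.1 i.1.2.2)) p *
          (Jr p r * x4 e p) / (p : ℝ) ≤
          (∑ i, E0 i) * Real.log (Real.log r) + ∑ i, |Ct i| := by
        have := mul_le_mul_of_nonneg_right (hEs i) hlr
        linarith [hCts i, le_abs_self (Ct i)]
      have h6 : 0 ≤ (∑ i, E0 i) * Real.log (Real.log r) + ∑ i, |Ct i| := by positivity
      have h7 : W * ∑ p ∈ PS z y, rhoc (f i.1.1) (gq u cls i.1.1 (dtp i.1.2.1 i.1.2.2)) p *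
            (Jr p r * x4 e p) / (p : ℝ) ≤ (∑ i, E0 i) * Real.log (Real.log r) + ∑ i, |Ct i| := by
        have h8 := mul_le_mul_of_nonneg_left h5 hW0.le
        have h9 := mul_le_mul_of_nonneg_right hW1 h6
        linarith
      have h8 : 0 ≤ 1 / 2 * (W * Sp (fun p => rho (f i.1.1) p) z y) := by
        have := Sp_nonneg (a := fun p => (rho (f i.1.1) p : ℝ)) (fun p => Nat.cast_nonneg _) z y
        positivity
      linarith)
  refine ⟨C * Real.exp (2 * (Fintype.card J * Cs)), fun y hy => ?_⟩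
  have h3 := h1 J (fun j l => adj (cls j) (cls l)) (fun j => hadj0 _) (fun j l => hadjs _ _)
    k c z y (rJ u cls f z) (by omega)
  have h4 : ∑ s ∈ Tup (J × Bool) z y, (NV (adJ cls) s (Eneg s) : ℝ) ^ k *
        ∏ i, gp (rJ u cls f z i) c (s i) =
      ∑ d ∈ Tup (IV J k (fun _ _ => true)) z y,
        (∏ i : IV J k (fun _ _ => true), gp (aw' i) c (d i)) *
        Sym (LV (fun j l => adj (cls j) (cls l))) (fun _ => 1) d := h3
  rw [h4]
  have h5 := hC y hy
  have h6 : ∑ j, Sp (fun p => rho (f j) p) z y = Sp (fun p => rho (∏ j, f j) p) z y := by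
    unfold Sp
    rw [sum_comm]
    refine sum_congr rfl fun p hp => ?_
    have hp' := mem_filter.1 hp
    beta_reduce
    rw [rho_prod hG' hp'.2 (mem_Ioc.1 hp'.1).1, ← sum_div]
    push_cast
    rfl
  rw [h6, Real.exp_add] at h5
  calc _ ≤ _ := le_abs_self _
    _ ≤ _ := h5
    _ = _ := by ring

end Pool.Agent.TH344.PJ
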