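import Pool.Agent.TH344.PJ.Stm
import Pool.Agent.TH344.JG.Sub
import Pool.Agent.TH344.JG.Sel
import Pool.Agent.TH344.JG.Loc

/-!
# PJ-SUB and PJ-RNK (helper126)
-/

set_option autoImplicit false

namespace Pool.Agent.TH344.PJ

open Finset Polynomial Pool.Agent.W262.RK Pool.Agent.W307.RT Pool.Agent.W307.RS
open Pool.Agent.TH841.PT Pool.Agent.TH344.JG Pool.Agent.TH344.JG.Sub11

theorem subj : S_SUBJ := by
  classical
  intro V _ _ ad k z y hz s e hT
  have hT' : (∀ j, s j * e j ∈ (PP z y).divisors) ∧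
      ∀ i j, i ≠ j → (s i * e i).Coprime (s j * e j) := by
    unfold Tup at hT
    rw [mem_filter, Fintype.mem_piFinset] at hT
    exact hT
  have hsqj : ∀ j, Squarefree (s j * e j) := fun j => dv_squarefree (hT'.1 j)
  have hs0 : ∀ j, s j ≠ 0 := fun j => left_ne_zero_of_mul (hsqj j).ne_zero
  have he0 : ∀ j, e j ≠ 0 := fun j => right_ne_zero_of_mul (hsqj j).ne_zero
  have hNV := NV_le (fun i i' : V × Bool => ad i.1 i'.1) s e
    (∏ v, s (v, true) * e (v, true)).primeFactors hT'.2 hs0 he0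
  have hω : (∏ j, e j).primeFactors.card ≤ ∑ j, (e j).primeFactors.card := by
    have h1 : (∏ j, e j).primeFactors ⊆ univ.biUnion (fun j => (e j).primeFactors) := by
      intro p hp
      rw [mem_biUnion]
      have hpp := Nat.prime_of_mem_primeFactors hp
      obtain ⟨j, _, hj⟩ := (hpp.prime.dvd_finsetProd_iff _).1 (Nat.dvd_of_mem_primeFactors hp)
      exact ⟨j, mem_univ _, Nat.mem_primeFactors.2 ⟨hpp, hj, he0 j⟩⟩
    exact (Finset.card_le_card h1).trans card_biUnion_le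
  have huniq : ∀ p : ℕ, p.Prime → ∀ i j, p ∣ s i * e i → p ∣ s j * e j → i = j := by
    intro p hp i j hi hj
    by_contra hne
    have h2 : p ∣ (s i * e i).gcd (s j * e j) := Nat.dvd_gcd hi hj
    rw [(hT'.2 i j hne).gcd_eq_one] at h2
    exact hp.one_lt.ne' (Nat.dvd_one.1 h2)
  have hE : (∏ v, s (v, true) * e (v, true)).primeFactors ∩ (∏ c, s c).primeFactors =
      (∏ v, s (v, true)).primeFactors := by
    ext p
    rw [mem_inter, Nat.mem_primeFactors, Nat.mem_primeFactors, Nat.mem_primeFactors]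
    constructor
    · rintro ⟨⟨hp, h1, _⟩, _, h2, _⟩
      obtain ⟨v, _, hv⟩ := (hp.prime.dvd_finsetProd_iff _).1 h1
      obtain ⟨i, _, hi⟩ := (hp.prime.dvd_finsetProd_iff _).1 h2
      have h3 := huniq p hp i (v, true) (hi.mul_right _) hv
      rw [h3] at hi
      exact ⟨hp, hi.trans (dvd_prod_of_mem (fun v => s (v, true)) (mem_univ v)),
        prod_ne_zero_iff.2 fun v _ => hs0 _⟩
    · rintro ⟨hp, h1, _⟩
      obtain ⟨v, _, hv⟩ := (hp.prime.dvd_finsetProd_iff _).1 h1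
      exact ⟨⟨hp, (hv.mul_right _).trans
        (dvd_prod_of_mem (fun v => s (v, true) * e (v, true)) (mem_univ v)),
        prod_ne_zero_iff.2 fun v _ => mul_ne_zero (hs0 _) (he0 _)⟩, hp,
        hv.trans (dvd_prod_of_mem s (mem_univ (v, true))), prod_ne_zero_iff.2 fun v _ => hs0 _⟩
  rw [hE] at hNV
  have h3 : (NV (fun i i' : V × Bool => ad i.1 i'.1) (fun i => s i * e i)
      (∏ v, s (v, true) * e (v, true)).primeFactors : ℝ) ≤
      2 ^ (∑ j, (e j).primeFactors.card) *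
        (NV (fun i i' : V × Bool => ad i.1 i'.1) s (∏ v, s (v, true)).primeFactors : ℝ) := by
    have h2 : (NV (fun i i' : V × Bool => ad i.1 i'.1) (fun i => s i * e i)
      (∏ v, s (v, true) * e (v, true)).primeFactors : ℝ) ≤ 2 ^ (∏ j, e j).primeFactors.card *
        (NV (fun i i' : V × Bool => ad i.1 i'.1) s (∏ v, s (v, true)).primeFactors : ℝ) := by
      exact_mod_cast hNV
    refine h2.trans (mul_le_mul_of_nonneg_right ?_ (Nat.cast_nonneg _))
    exact pow_le_pow_right₀ (by norm_num) hω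
  refine (pow_le_pow_left₀ (Nat.cast_nonneg _) h3 k).trans (le_of_eq ?_)
  rw [mul_pow, ← pow_mul, ← pow_mul, mul_comm k]

/-! ### The Selmer group -/

section rnk

variable {J : Type} [Fintype J] [DecidableEq J] {n : ℕ}

lemma prJ_pow {u : Fin n → ℤ[X]} {cls : J → PR n} {f : J → ℤ[X]} {z : ℕ} {t : ℤ}
    (h0 : ∀ j, (f j).eval t ≠ 0) (i : J × Bool) {p : ℕ} (hp : p.Prime) (hz : z < p) {k : ℕ}
    (hk : k ≠ 0) : (p : ℤ) ^ k ∣ prJ u cls f z t i ↔
      (p : ℤ) ^ k ∣ (f i.1).eval t ∧ tyJ u cls p t i.1 = i.2 := by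
  have h1 : ∀ x : ℤ, (p : ℤ) ^ k ∣ x ↔ p ^ k ∣ x.natAbs := by
    intro x
    rw [← Int.natCast_dvd]
    push_cast
    rfl
  unfold prJ
  rw [h1, h1, Int.natAbs_natCast]
  by_cases hty : tyJ u cls p t i.1 = i.2
  · rw [partN_pow (Int.natAbs_ne_zero.2 (h0 _)) hp ⟨hz, hty⟩]
    simp [hty]
  · constructor
    · intro h2
      exact absurd (partN_of hp ((dvd_pow_self p hk).trans h2)).2 hty
    · intro h2
      exact absurd h2.2 hty

lemma prJ_dvd {u : Fin n → ℤ[X]} {cls : J → PR n} {f : J → ℤ[X]} {z : ℕ} {t : ℤ}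
    (h0 : ∀ j, (f j).eval t ≠ 0) (i : J × Bool) {p : ℕ} (hp : p.Prime) (hz : z < p) :
    (p : ℤ) ∣ prJ u cls f z t i ↔ (p : ℤ) ∣ (f i.1).eval t ∧ tyJ u cls p t i.1 = i.2 := by
  have := prJ_pow (u := u) (cls := cls) h0 i hp hz one_ne_zero
  rwa [pow_one] at this

lemma s1_iff {ι : Type} {z y : ℕ} {x : ι → ℤ} {p : ℕ} (hp : p.Prime) {i : ι} :
    p ∣ S1 z y x i ↔ p ∈ PS z y ∧ (p : ℤ) ∣ x i ∧ ¬ (p : ℤ) ^ 2 ∣ x i := by
  unfold S1
  constructor
  · intro h
    obtain ⟨q, hq, hpq⟩ := (hp.prime.dvd_finsetProd_iff _).1 h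
    have hq' := mem_filter.1 hq
    have h7 := (Nat.prime_dvd_prime_iff_eq hp (mem_PS'.1 hq'.1).2).1 hpq
    rw [← h7] at hq'
    exact hq'
  · intro h
    exact dvd_prod_of_mem (fun p : ℕ => p) (mem_filter.2 h)

lemma s1_ne {ι : Type} (z y : ℕ) (x : ι → ℤ) (i : ι) : S1 z y x i ≠ 0 := by
  unfold S1
  exact prod_ne_zero_iff.2 fun q hq => (mem_PS'.1 (mem_filter.1 hq).1).2.ne_zero

/-- the values at the primes of the parts -/
structure Val (u : Fin n → ℤ[X]) (cls : J → PR n) (f : J → ℤ[X]) (z y : ℕ) (t : ℤ)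
    (i : J × Bool) (p : ℕ) : Prop where
  ps : p ∈ PS z y
  dv : (p : ℤ) ∣ (f i.1).eval t
  nd : ¬ (p : ℤ) ^ 2 ∣ (f i.1).eval t
  ty : tyJ u cls p t i.1 = i.2

lemma val_iff {u : Fin n → ℤ[X]} {cls : J → PR n} {f : J → ℤ[X]} {z y : ℕ} {t : ℤ}
    (h0 : ∀ j, (f j).eval t ≠ 0) (i : J × Bool) {p : ℕ} (hp : p.Prime) :
    p ∣ S1 z y (prJ u cls f z t) i ↔ Val u cls f z y t i p := by
  rw [s1_iff hp]
  constructor
  · rintro ⟨h1, h2, h3⟩
    have hz := (mem_PS'.1 h1).1.1
    rw [prJ_dvd h0 i hp hz] at h2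
    rw [prJ_pow h0 i hp hz two_ne_zero] at h3
    exact ⟨h1, h2.1, fun h4 => h3 ⟨h4, h2.2⟩, h2.2⟩
  · rintro ⟨h1, h2, h3, h4⟩
    have hz := (mem_PS'.1 h1).1.1
    rw [prJ_dvd h0 i hp hz, prJ_pow h0 i hp hz two_ne_zero]
    exact ⟨h1, ⟨h2, h4⟩, fun h5 => h3 h5.1⟩

lemma val_uniq {u : Fin n → ℤ[X]} {κ : PR n → ℤ} {cls : J → PR n} {f : J → ℤ[X]} {z c y : ℕ}
    {t : ℤ} (hG : GoodP κ f z c) {i i' : J × Bool} {p : ℕ} (hp : p.Prime)
    (h : Val u cls f z y t i p) (h' : Val u cls f z y t i' p) : i = i' := by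
  have hz := (mem_PS'.1 h.ps).1.1
  have hj : i.1 = i'.1 := by
    by_contra hne
    exact hG.pair p hp hz _ _ hne t ⟨h.dv, h'.dv⟩
  refine Prod.ext hj ?_
  rw [← h.ty, ← h'.ty, hj]

lemma df_eq {u : Fin n → ℤ[X]} {κ : PR n → ℤ} {cls : J → PR n} {f : J → ℤ[X]} {ν : ℕ}
    (hP : Pen u κ cls f ν) (t : ℤ) (c : PR n) :
    df (fun i => (u i).eval t) c = κ c * ∏ j ∈ univ.filter (fun j => cls j = c), (f j).eval t := by
  have h := congrArg (Polynomial.eval t) (hP.fac c)
  rw [eval_sub, eval_mul, eval_C, eval_prod] at h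
  exact h

lemma df_dvd {u : Fin n → ℤ[X]} {κ : PR n → ℤ} {cls : J → PR n} {f : J → ℤ[X]} {ν z c : ℕ}
    (hP : Pen u κ cls f ν) (hG : GoodP κ f z c) {t : ℤ} {p : ℕ} (hp : p.Prime) (hz : z < p)
    (c : PR n) : (p : ℤ) ∣ df (fun i => (u i).eval t) c ↔ ∃ j, cls j = c ∧ (p : ℤ) ∣ (f j).eval t := by
  have hpi := Nat.prime_iff_prime_int.1 hp
  rw [df_eq hP]
  constructor
  · intro h
    rcases hpi.dvd_or_dvd h with h1 | h1
    · exact absurd h1 (hG.const p hp hz c)
    · obtain ⟨j, hj, h2⟩ := (hpi.dvd_finsetProd_iff _).1 h1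
      exact ⟨j, (mem_filter.1 hj).2, h2⟩
  · rintro ⟨j, hj, h⟩
    exact (h.trans (dvd_prod_of_mem (fun j => (f j).eval t)
      (mem_filter.2 ⟨mem_univ j, hj⟩))).mul_left _

lemma df_sq {u : Fin n → ℤ[X]} {κ : PR n → ℤ} {cls : J → PR n} {f : J → ℤ[X]} {ν z c : ℕ}
    (hP : Pen u κ cls f ν) (hG : GoodP κ f z c) {t : ℤ} {p : ℕ} (hp : p.Prime) (hz : z < p)
    {j : J} (hj : (p : ℤ) ∣ (f j).eval t) (h : (p : ℤ) ^ 2 ∣ df (fun i => (u i).eval t) (cls j)) :
    (p : ℤ) ^ 2 ∣ (f j).eval t := by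
  have hpi := Nat.prime_iff_prime_int.1 hp
  have hjm : j ∈ univ.filter (fun l => cls l = cls j) := mem_filter.2 ⟨mem_univ j, rfl⟩
  rw [df_eq hP, ← mul_prod_erase _ _ hjm, mul_left_comm] at h
  refine (IsCoprime.pow_left ((Prime.coprime_iff_not_dvd hpi).2 ?_)).dvd_of_dvd_mul_right h
  intro h1
  rcases hpi.dvd_or_dvd h1 with h2 | h2
  · exact hG.const p hp hz _ h2
  · obtain ⟨l, hl, h3⟩ := (hpi.dvd_finsetProd_iff _).1 h2
    exact hG.pair p hp hz j l (mem_erase.1 hl).1.symm t ⟨hj, h3⟩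

lemma sJ_eq (u : Fin n → ℤ[X]) (t : ℤ) (c : PR n) :
    sJ (fun i => (u i).eval t) c = (sP u c).eval t := by
  unfold sJ sP
  rw [eval_prod]
  simp only [eval_sub]

theorem rnkj : S_RNKJ := by
  classical
  intro g ν J _ _ u κ cls f z c hg hP hG
  refine ⟨(2 ^ (2 * g + 1)) ^ (1 + z), by positivity, ?_⟩
  intro y X k B t h0 hB hX hy hk
  set a : Fin (2 * g + 1) → ℤ := fun i => (u i).eval t with ha
  set s : J × Bool → ℕ := S1 z y (prJ u cls f z t) with hs
  set s' : PR (2 * g + 1) → ℕ := fun c => ∏ i ∈ univ.filter (fun i : J × Bool => cls i.1 = c), s i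
    with hs'
  have hprod : ∏ c, s' c = ∏ i, s i := by
    rw [hs']
    exact prod_fiberwise univ (fun i : J × Bool => cls i.1) s
  have hsne : ∀ i, s i ≠ 0 := fun i => s1_ne _ _ _ _
  have hsv : ∀ i, ∀ p : ℕ, p.Prime → (p ∣ s i ↔ Val u cls f z y t i p) := fun i p hp =>
    val_iff h0 i hp
  have hs'v : ∀ c, ∀ p : ℕ, p.Prime → (p ∣ s' c ↔ ∃ i, cls i.1 = c ∧ p ∣ s i) := by
    intro c p hp
    constructor
    · intro h
      obtain ⟨i, hi, h1⟩ := (hp.prime.dvd_finsetProd_iff _).1 h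
      exact ⟨i, (mem_filter.1 hi).2, h1⟩
    · rintro ⟨i, hi, h1⟩
      exact h1.trans (dvd_prod_of_mem s (mem_filter.2 ⟨mem_univ i, hi⟩))
  have hdne : ∀ c, df a c ≠ 0 := by
    intro c
    rw [ha, df_eq hP]
    exact mul_ne_zero (hP.ne c) (prod_ne_zero_iff.2 fun j _ => h0 j)
  have hinj : Function.Injective a := by
    intro i j hij
    by_contra hne
    rcases lt_or_gt_of_ne hne with h | h
    · exact hdne ⟨(i, j), h⟩ (sub_eq_zero.2 hij)
    · exact hdne ⟨(j, i), h⟩ (sub_eq_zero.2 hij.symm)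
  have hsqf : ∀ i, Squarefree (s i) := by
    intro i
    rw [hs]
    unfold S1
    refine (PP_squarefree z y).squarefree_of_dvd ?_
    unfold PP
    exact prod_dvd_prod_of_subset _ _ _ (filter_subset _ _)
  have hcop : ∀ i j, i ≠ j → (s i).Coprime (s j) := by
    intro i j hij
    rw [Nat.coprime_iff_gcd_eq_one]
    by_contra hne
    obtain ⟨p, hp, hpd⟩ := Nat.exists_prime_and_dvd hne
    exact hij (val_uniq hG hp ((hsv i p hp).1 (hpd.trans (Nat.gcd_dvd_left _ _)))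
      ((hsv j p hp).1 (hpd.trans (Nat.gcd_dvd_right _ _))))
  have hsq' : ∀ c, Squarefree (s' c) := by
    intro c
    apply Finset.squarefree_prod_of_pairwise_isCoprime
    · intro i _ j _ hij
      exact Nat.coprime_iff_isRelPrime.1 (hcop i j hij)
    · intro j _
      exact hsqf j
  have hz4 := hG.four
  have hloc : ∀ c, ∀ p : ℕ, p.Prime → p ∣ s' c → p ≠ 2 ∧ (p : ℤ) ∣ df a c ∧
      ¬ (p : ℤ) ^ 2 ∣ df a c ∧ ∀ c', c' ≠ c → ¬ (p : ℤ) ∣ df a c' := by
    intro c p hp h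
    obtain ⟨i, hi, h1⟩ := (hs'v c p hp).1 h
    have h2 := (hsv i p hp).1 h1
    have hz := (mem_PS'.1 h2.ps).1.1
    refine ⟨by omega, (df_dvd hP hG hp hz c).2 ⟨i.1, hi, h2.dv⟩, fun h3 => h2.nd ?_, ?_⟩
    · rw [← hi] at h3
      exact df_sq hP hG hp hz h2.dv h3
    · intro c' hc' h3
      obtain ⟨j, hj, h4⟩ := (df_dvd hP hG hp hz c').1 h3
      by_cases hji : j = i.1
      · apply hc'
        rw [← hj, hji, hi]
      · exact hG.pair p hp hz _ _ hji t ⟨h4, h2.dv⟩
  have hodd : Odd (2 * g + 1) := ⟨g, rfl⟩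
  obtain ⟨hfin, hle⟩ := selj_of goodj nicej (2 * g + 1) a s' hodd hinj hsq' hloc
  refine ⟨hfin, ?_⟩
  -- the local count
  have hmp : ∀ p : ℕ, p ∈ (∏ i, s i).primeFactors → ∃ i, Val u cls f z y t i p := by
    intro p hp
    have hpp := Nat.prime_of_mem_primeFactors hp
    obtain ⟨i, _, hi⟩ := (hpp.prime.dvd_finsetProd_iff _).1 (Nat.dvd_of_mem_primeFactors hp)
    exact ⟨i, (hsv i p hpp).1 hi⟩
  have hsg : ∀ i, ∀ p : ℕ, p.Prime → Val u cls f z y t i p →
      (p ∈ sgJ a (∏ i, s i) ↔ p ∈ Eneg s) := by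
    intro i p hp hv
    have hz := (mem_PS'.1 hv.ps).1.1
    have hps : p ∣ s i := (hsv i p hp).2 hv
    have h1 : p ∈ sgJ a (∏ i, s i) ↔ i.2 = true := by
      unfold sgJ
      rw [mem_filter, Nat.mem_primeFactors]
      constructor
      · rintro ⟨_, c, hc, hj⟩
        obtain ⟨j, hjc, hjd⟩ := (df_dvd hP hG hp hz c).1 hc
        have hji : j = i.1 := by
          by_contra hne
          exact hG.pair p hp hz _ _ hne t ⟨hjd, hv.dv⟩
        rw [← hv.ty]
        unfold tyJ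
        rw [decide_eq_true_eq, ← hji, hjc, ← sJ_eq]
        exact hj
      · intro h
        refine ⟨⟨hp, hps.trans (dvd_prod_of_mem s (mem_univ i)),
          prod_ne_zero_iff.2 fun i _ => hsne i⟩, cls i.1,
          (df_dvd hP hG hp hz _).2 ⟨i.1, rfl, hv.dv⟩, ?_⟩
        have h2 := hv.ty
        rw [h] at h2
        unfold tyJ at h2
        rw [decide_eq_true_eq, ← sJ_eq] at h2
        exact h2
    have h2 : p ∈ Eneg s ↔ i.2 = true := by
      unfold Eneg
      rw [Nat.mem_primeFactors]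
      constructor
      · rintro ⟨_, hd, _⟩
        obtain ⟨v, _, hvd⟩ := (hp.prime.dvd_finsetProd_iff _).1 hd
        have h3 := val_uniq hG hp hv ((hsv _ p hp).1 hvd)
        rw [h3]
      · intro h
        refine ⟨hp, ?_, prod_ne_zero_iff.2 fun v _ => hsne _⟩
        have h3 : i = (i.1, true) := Prod.ext rfl h
        rw [h3] at hps
        exact hps.trans (dvd_prod_of_mem (fun v => s (v, true)) (mem_univ i.1))
    rw [h1, h2]
  have hNV : NV adj s' (sgJ a (∏ c, s' c)) = NV (adJ cls) s (Eneg s) := by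
    rw [NV_eq, NV_eq, hprod]
    congr 1
    refine filter_congr fun w hw => ?_
    rw [mem_powerset] at hw
    have hfil : ∀ c, w.filter (fun q => ∃ c', adj c c' = true ∧ q ∣ s' c') =
        w.filter (fun q => ∃ i', adj c (cls i'.1) = true ∧ q ∣ s i') := by
      intro c
      refine filter_congr fun q hq => ?_
      have hqp := Nat.prime_of_mem_primeFactors (hw hq)
      constructor
      · rintro ⟨c', h1, h2⟩
        obtain ⟨i, hi, h3⟩ := (hs'v c' q hqp).1 h2
        exact ⟨i, by rw [hi]; exact h1, h3⟩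
      · rintro ⟨i', h1, h2⟩
        exact ⟨cls i'.1, h1, (hs'v _ q hqp).2 ⟨i', rfl, h2⟩⟩
    have hif : ∀ i, ∀ p : ℕ, p.Prime → p ∣ s i →
        (if p ∈ w ∧ p ∈ sgJ a (∏ i, s i) then (-1 : ℤ) else 1) =
          if p ∈ w ∧ p ∈ Eneg s then -1 else 1 := fun i p hp hd =>
      if_congr (and_congr_right fun _ => hsg i p hp ((hsv i p hp).1 hd)) rfl rfl
    unfold CondV
    constructor
    · intro h i p hp
      have hpp := Nat.prime_of_mem_primeFactors hp
      have hpd := Nat.dvd_of_mem_primeFactors hp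
      have h1 := h (cls i.1) p (Nat.mem_primeFactors.2 ⟨hpp, (hs'v _ p hpp).2 ⟨i, rfl, hpd⟩,
        (hsq' _).ne_zero⟩)
      rw [hfil] at h1
      exact h1.trans (hif i p hpp hpd)
    · intro h c p hp
      have hpp := Nat.prime_of_mem_primeFactors hp
      obtain ⟨i, hi, hpd⟩ := (hs'v c p hpp).1 (Nat.dvd_of_mem_primeFactors hp)
      have h1 := h i p (Nat.mem_primeFactors.2 ⟨hpp, hpd, hsne i⟩)
      rw [hfil, ← hi]
      exact h1.trans (hif i p hpp hpd).symm
  -- the bad primes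
  have hbad : ((2 * ∏ c, (df a c).natAbs).primeFactors.filter
      (fun q => ¬ q ∣ ∏ c, s' c)).card ≤ z + Fintype.card J * (B * k) +
        ∑ i, (S2 z y (prJ u cls f z t) i).primeFactors.card := by
    have hsub : ((2 * ∏ c, (df a c).natAbs).primeFactors.filter
        (fun q => ¬ q ∣ ∏ c, s' c)) ⊆
        ((Icc 1 z) ∪ univ.biUnion (fun j => ((f j).eval t).natAbs.primeFactors.filter
          (fun p => y < p))) ∪ univ.biUnion (fun i => (S2 z y (prJ u cls f z t) i).primeFactors) := by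
      intro q hq
      rw [mem_filter] at hq
      have hp := Nat.prime_of_mem_primeFactors hq.1
      have hdv := Nat.dvd_of_mem_primeFactors hq.1
      rw [mem_union, mem_union, mem_Icc]
      rcases Nat.lt_or_ge z q with h | h
      swap
      · exact Or.inl (Or.inl ⟨hp.one_lt.le, h⟩)
      · have hc : ∃ c, (q : ℤ) ∣ df a c := by
          rcases (Nat.Prime.dvd_mul hp).1 hdv with h1 | h1
          · exfalso
            have := Nat.le_of_dvd (by norm_num) h1
            omega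
          · obtain ⟨c, _, hc⟩ := (hp.prime.dvd_finsetProd_iff _).1 h1
            exact ⟨c, Int.natCast_dvd.2 hc⟩
        obtain ⟨c, hc⟩ := hc
        obtain ⟨j, hjc, hjd⟩ := (df_dvd hP hG hp h c).1 hc
        rcases Nat.lt_or_ge y q with hyq | hyq
        · left; right
          rw [mem_biUnion]
          refine ⟨j, mem_univ _, ?_⟩
          rw [mem_filter, Nat.mem_primeFactors]
          exact ⟨⟨hp, Int.natCast_dvd.1 hjd, Int.natAbs_ne_zero.2 (h0 j)⟩, hyq⟩
        · right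
          have hPS : q ∈ PS z y := mem_PS'.2 ⟨⟨h, hyq⟩, hp⟩
          rw [mem_biUnion]
          refine ⟨(j, tyJ u cls q t j), mem_univ _, ?_⟩
          have hsq : (q : ℤ) ^ 2 ∣ (f j).eval t := by
            by_contra hcon
            apply hq.2
            rw [hprod]
            refine dvd_trans ?_ (dvd_prod_of_mem s (mem_univ (j, tyJ u cls q t j)))
            exact (hsv _ q hp).2 ⟨hPS, hjd, hcon, rfl⟩
          have hsq2 : (q : ℤ) ^ 2 ∣ prJ u cls f z t (j, tyJ u cls q t j) :=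
            (prJ_pow h0 _ hp h two_ne_zero).2 ⟨hsq, rfl⟩
          rw [Nat.mem_primeFactors]
          refine ⟨hp, ?_, ?_⟩
          · unfold S2
            exact dvd_prod_of_mem (fun p : ℕ => p) (mem_filter.2 ⟨hPS, hsq2⟩)
          · unfold S2
            exact prod_ne_zero_iff.2 fun p hp => (mem_PS'.1 (mem_filter.1 hp).1).2.ne_zero
    have hone : ∀ j, (((f j).eval t).natAbs.primeFactors.filter (fun p => y < p)).card ≤ B * k := by
      intro j
      set S := ((f j).eval t).natAbs.primeFactors.filter (fun p => y < p) with hS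
      have h1 : (y + 1) ^ S.card ≤ ∏ q ∈ S, q :=
        Finset.pow_card_le_prod _ _ _ (fun q hq => by
          have := (mem_filter.1 hq).2
          omega)
      have h2 : ∏ q ∈ S, q ∣ ((f j).eval t).natAbs :=
        (prod_dvd_prod_of_subset _ _ _ (filter_subset _ _)).trans (Nat.prod_primeFactors_dvd _)
      have h3 : ∏ q ∈ S, q ≤ ((f j).eval t).natAbs :=
        Nat.le_of_dvd (Nat.pos_of_ne_zero (Int.natAbs_ne_zero.2 (h0 j))) h2
      have h4 : (y + 1) ^ S.card ≤ (y + 1) ^ (B * k) := by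
        calc (y + 1) ^ S.card ≤ X ^ B := h1.trans (h3.trans (hB j))
          _ ≤ ((y + 1) ^ k) ^ B := Nat.pow_le_pow_left hk.le B
          _ = (y + 1) ^ (B * k) := by rw [← pow_mul, mul_comm]
      exact (Nat.pow_le_pow_iff_right (by omega)).1 h4
    refine (card_le_card hsub).trans ((card_union_le _ _).trans (add_le_add
      ((card_union_le _ _).trans (add_le_add ?_ ?_)) card_biUnion_le))
    · simp
    · refine card_biUnion_le.trans ?_
      refine (sum_le_sum fun j _ => hone j).trans ?_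
      rw [sum_const, card_univ, smul_eq_mul]
  rw [hNV] at hle
  have hle2 : (SelJ a).ncard ≤ (2 ^ (2 * g + 1)) ^ (1 + (z + Fintype.card J * (B * k) +
      ∑ i, (S2 z y (prJ u cls f z t) i).primeFactors.card)) * NV (adJ cls) s (Eneg s) :=
    hle.trans (Nat.mul_le_mul_right _ (Nat.pow_le_pow_right (by positivity) (by omega)))
  have h3 : ((SelJ a).ncard : ℝ) ≤ _ := Nat.cast_le.2 hle2
  refine h3.trans (le_of_eq ?_)
  push_cast
  rw [prod_pow_eq_pow_sum]
  congr 1
  rw [← pow_mul, ← pow_mul, ← pow_mul, ← pow_mul, ← pow_mul, ← pow_add, ← pow_add]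
  congr 1
  ring

end rnk

end Pool.Agent.TH344.PJ
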