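import Mathlib
import Pool.Agent.TH344.PJ.Rnk
import Pool.Agent.TH344.PJ.Cnt
import Pool.Agent.TH344.PJ.Cmb
import Pool.Agent.TH344.PJ.Mak
import Pool.Agent.TH344.PJ.Avg
import Pool.Agent.TH344.PW.Exp
import Pool.Agent.TH841.PT.Fin2

/-!
# Project PJ: the moments of the 2-Selmer groups in one-parameter families
-/

set_option autoImplicit false

namespace Pool.Agent.TH344.PJ

theorem cntj : S_CNTJ := cntj_of Pool.Agent.TH841.PT.cnth

theorem makj : S_MAKJ := makj_of Pool.Agent.TH344.PW.expj cmbj

theorem penj : S_PENJ := penj_of rnkj cntj subj makj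

end Pool.Agent.TH344.PJ
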