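import Mathlib
import Pool.Agent.TH841.PT.PenP

/-!
# Project PJ: from sifted arguments to all arguments and to prime arguments
-/

set_option autoImplicit false

namespace Pool.Agent.TH344.PJ

open Finset Polynomial Pool.Agent.TH841.PT

open Pool.Agent.H474R2.PG (rho)

/-- the average of `S` over the sifted arguments with `P` -/
def SiftAv (S : ℤ → ℝ) (P : ℤ → Prop) (G : ℤ[X]) (B : ℕ) : Prop :=
  ∃ z0 : ℕ, ∀ z, z0 ≤ z → ∃ C2 : ℝ, ∀ (N : ℤ) (X : ℕ), 1 ≤ X → N.natAbs ≤ X ^ B →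
    ∀ T : Finset ℕ, T ⊆ Icc 1 X → (∀ t ∈ T, P (N + (t : ℤ)) ∧ Sft G z X (N + (t : ℤ))) →
    ∑ t ∈ T, S (N + (t : ℤ)) ≤ C2 * (X * Real.exp (-Sp (fun p => (rho G p : ℝ)) z X))

variable {S : ℤ → ℝ} {P : ℤ → Prop}

lemma rho_one (p : ℕ) (hp : p.Prime) : rho (1 : ℤ[X]) p = 0 := by
  classical
  unfold rho
  rw [card_eq_zero, filter_eq_empty_iff]
  intro a _ h
  rw [eval_one] at h
  have h1 : (p : ℤ) ∣ ((1 : ℕ) : ℤ) := by simpa using h
  exact hp.one_lt.ne' (Nat.dvd_one.1 (Int.natCast_dvd_natCast.1 h1))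

lemma Sft_one (z X : ℕ) (t : ℤ) : Sft 1 z X t := by
  intro p hp _ _ h
  rw [eval_one] at h
  have h1 : (p : ℤ) ∣ ((1 : ℕ) : ℤ) := by simpa using h
  exact hp.one_lt.ne' (Nat.dvd_one.1 (Int.natCast_dvd_natCast.1 h1))

lemma Sp_one (z X : ℕ) : Sp (fun p => (rho (1 : ℤ[X]) p : ℝ)) z X = 0 := by
  unfold Sp
  apply sum_eq_zero
  intro p hp
  have : p.Prime := by
    unfold Pool.Agent.W262.RK.PS at hp
    exact (mem_filter.1 hp).2
  simp only
  rw [rho_one p this]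
  simp

open Classical in
/-- all arguments -/
lemma all_av (hS : ∀ t, 0 ≤ S t) (L : ℕ) (h : SiftAv S P 1 L) :
    ∃ C : ℝ, 0 ≤ C ∧ ∀ (N : ℤ) (M : ℕ), 1 ≤ M → |N| ≤ (M : ℤ) ^ L →
      ∑ t ∈ (Ioc N (N + M)).filter P, S t ≤ C * M := by
  obtain ⟨z0, hz0⟩ := h
  obtain ⟨C, hC⟩ := hz0 z0 le_rfl
  refine ⟨|C|, abs_nonneg _, fun N M hM hN => ?_⟩
  refine (to_Ioc S hS P N M).trans ?_
  refine (hC N M hM (natAbs_le_of hN) _ (filter_subset _ _) ?_).trans ?_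
  · intro t ht
    exact ⟨(mem_filter.1 ht).2, Sft_one _ _ _⟩
  · rw [Sp_one, neg_zero, Real.exp_zero, mul_one]
    exact mul_le_mul_of_nonneg_right (le_abs_self _) (Nat.cast_nonneg _)

variable {r : ℕ} {G : Fin r → ℤ[X]}

open Classical in
/-- the small arguments -/
lemma small_av (hS : ∀ t, 0 ≤ S t) (hG : Irr G) (h : SiftAv S P 1 1) :
    ∃ C : ℝ, 0 ≤ C ∧ ∀ (N : ℤ) (M : ℕ), 2 ≤ M →
      ∑ t ∈ ((Ioc N (N + M)).filter P).filter
        (fun t => ∃ i, ((G i).eval t).natAbs ^ 2 ≤ M), S t ≤ C * (M / (Real.log M) ^ r) := by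
  obtain ⟨C, hC0, hC⟩ := all_av hS 1 h
  choose K hK using fun i => grow (hG.deg i)
  obtain ⟨C2, hC20, hC2⟩ := sqrt_log r
  set Kt := ∑ i, K i with hKt
  refine ⟨C * (2 * Kt + 3) * C2, by positivity, fun N M hM => ?_⟩
  have hM1 : (1 : ℝ) ≤ M := by exact_mod_cast (by omega : 1 ≤ M)
  set R : ℕ := Nat.sqrt M + Kt with hR
  have h1 := hC (-(R : ℤ) - 1) (2 * R + 1) (by omega) (by
    rw [pow_one, abs_le]
    push_cast
    constructor <;> omega)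
  have h2 : ∑ t ∈ ((Ioc N (N + M)).filter P).filter
        (fun t => ∃ i, ((G i).eval t).natAbs ^ 2 ≤ M), S t ≤
      ∑ t ∈ (Ioc (-(R : ℤ) - 1) (-(R : ℤ) - 1 + (2 * R + 1 : ℕ))).filter P, S t := by
    refine sum_le_sum_of_subset_of_nonneg ?_ fun t _ _ => hS t
    intro t ht
    rw [mem_filter, mem_filter] at ht
    obtain ⟨⟨_, ht2⟩, i, hi⟩ := ht
    rw [mem_filter, mem_Ioc]
    have h3 := hK i t
    have h4 : ((G i).eval t).natAbs ≤ Nat.sqrt M := Nat.le_sqrt'.2 hi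
    have h5 : K i ≤ Kt := single_le_sum (f := K) (fun _ _ => Nat.zero_le _) (mem_univ i)
    have h6 : t.natAbs ≤ R := by omega
    refine ⟨⟨by omega, by push_cast; omega⟩, ht2⟩
  have h3 : (Nat.sqrt M : ℝ) ≤ Real.sqrt M := by
    apply Real.le_sqrt_of_sq_le
    exact_mod_cast Nat.sqrt_le' M
  have h4 : (1 : ℝ) ≤ Real.sqrt M := Real.one_le_sqrt.2 hM1
  refine h2.trans (h1.trans ?_)
  have h5 : ((2 * R + 1 : ℕ) : ℝ) ≤ (2 * Kt + 3) * Real.sqrt M := by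
    rw [hR]
    push_cast
    have h6 : (Kt : ℝ) ≤ Kt * Real.sqrt M := le_mul_of_one_le_right (Nat.cast_nonneg _) h4
    linarith
  calc C * ((2 * R + 1 : ℕ) : ℝ) ≤ C * ((2 * Kt + 3) * Real.sqrt M) :=
        mul_le_mul_of_nonneg_left h5 hC0
    _ ≤ C * ((2 * Kt + 3) * (C2 * (M / (Real.log M) ^ r))) :=
        mul_le_mul_of_nonneg_left (mul_le_mul_of_nonneg_left (hC2 M hM) (by positivity)) hC0
    _ = _ := by ring

open Classical in
/-- **prime arguments** -/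
theorem prime_av (hS : ∀ t, 0 ≤ S t) (hG : Irr G) (L : ℕ) (h1 : SiftAv S P 1 1)
    (hL : SiftAv S P (∏ i, G i) L) :
    ∃ C : ℝ, 0 ≤ C ∧ ∀ (N : ℤ) (M : ℕ), 2 ≤ M → |N| ≤ (M : ℤ) ^ L →
      ∑ t ∈ (Ioc N (N + M)).filter (fun t => P t ∧ AllPr G t), S t ≤
        C * (M / (Real.log M) ^ r) := by
  obtain ⟨z1, hz1⟩ := hL
  obtain ⟨z2, hz2⟩ := exp_prod GDPf.gdp hG
  obtain ⟨C1, hC1⟩ := hz1 (z1 + z2) (by omega)
  obtain ⟨C2, hC20, hC2⟩ := hz2 (z1 + z2) (by omega)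
  obtain ⟨C3, hC30, hC3⟩ := small_av hS hG h1
  refine ⟨|C1| * C2 + C3, by positivity, fun N M hM hN => ?_⟩
  have hM0 : (0 : ℝ) ≤ M := Nat.cast_nonneg _
  -- the large part
  have hlarge : ∑ t ∈ (Ioc N (N + M)).filter (fun t => P t ∧
      AllPr G t ∧ ∀ i, M < ((G i).eval t).natAbs ^ 2), S t ≤
        |C1| * C2 * (M / (Real.log M) ^ r) := by
    refine (to_Ioc S hS (fun t => P t ∧
        AllPr G t ∧ ∀ i, M < ((G i).eval t).natAbs ^ 2) N M).trans ?_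
    refine (hC1 N M (by omega) (natAbs_le_of hN) _ (filter_subset _ _) ?_).trans ?_
    · intro t ht
      have ht' := (mem_filter.1 ht).2
      exact ⟨ht'.1, Sft_of ht'.2.1 ht'.2.2⟩
    · calc C1 * (M * Real.exp (-Sp (fun p => (rho (∏ i, G i) p : ℝ)) (z1 + z2) M))
          ≤ |C1| * (M * Real.exp (-Sp (fun p => (rho (∏ i, G i) p : ℝ)) (z1 + z2) M)) :=
            mul_le_mul_of_nonneg_right (le_abs_self _) (by positivity)
        _ ≤ |C1| * (M * (C2 / (Real.log M) ^ r)) :=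
            mul_le_mul_of_nonneg_left (mul_le_mul_of_nonneg_left (hC2 M hM) hM0) (abs_nonneg _)
        _ = _ := by ring
  have hsmall := hC3 N M hM
  refine le_trans ?_ ((add_le_add hlarge hsmall).trans (le_of_eq (by ring)))
  have hsub : (Ioc N (N + M)).filter (fun t => P t ∧ AllPr G t) ⊆
      (Ioc N (N + M)).filter (fun t => P t ∧
      AllPr G t ∧ ∀ i, M < ((G i).eval t).natAbs ^ 2) ∪
      ((Ioc N (N + M)).filter P).filter
        (fun t => ∃ i, ((G i).eval t).natAbs ^ 2 ≤ M) := by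
    intro t ht
    rw [mem_filter] at ht
    rw [mem_union, mem_filter, mem_filter, mem_filter]
    by_cases hi : ∃ i, ((G i).eval t).natAbs ^ 2 ≤ M
    · exact Or.inr ⟨⟨ht.1, ht.2.1⟩, hi⟩
    · push Not at hi
      exact Or.inl ⟨ht.1, ht.2.1, ht.2.2, hi⟩
  refine (sum_le_sum_of_subset_of_nonneg hsub fun t _ _ => hS t).trans ?_
  have hnn : 0 ≤ ∑ t ∈ ((Ioc N (N + M)).filter (fun t => P t ∧
      AllPr G t ∧ ∀ i, M < ((G i).eval t).natAbs ^ 2)) ∩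
      (((Ioc N (N + M)).filter P).filter
        (fun t => ∃ i, ((G i).eval t).natAbs ^ 2 ≤ M)), S t :=
    sum_nonneg fun t _ => hS t
  have := sum_union_inter (s₁ := (Ioc N (N + M)).filter (fun t =>
      P t ∧ AllPr G t ∧ ∀ i, M < ((G i).eval t).natAbs ^ 2))
      (s₂ := ((Ioc N (N + M)).filter P).filter
        (fun t => ∃ i, ((G i).eval t).natAbs ^ 2 ≤ M)) (f := S)
  linarith

end Pool.Agent.TH344.PJ
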