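import Mathlib
import Pool.Agent.TH344.PJ.Main
import Pool.Agent.TH344.PJ.Prime
import Pool.Agent.TH344.PJ.Intr

/-!
# Project PJ: the moments in a family with coprime squarefree differences
-/

set_option autoImplicit false

namespace Pool.Agent.TH344.PJ

open Finset Polynomial Pool.Agent.TH841.PT Pool.Agent.TH344.JG

/-- the points `u i (t)` are different -/
def NDeg {n : ℕ} (u : Fin n → ℤ[X]) (t : ℤ) : Prop := Function.Injective (fun i => (u i).eval t)

section

variable {n : ℕ} {u : Fin n → ℤ[X]} {J : Type} [Fintype J] [DecidableEq J] {κ : PR n → ℤ}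
  {cls : J → PR n} {f : J → ℤ[X]}

/-- the arguments for which all the points are different -/
lemma inj_iff (hκ : ∀ c, κ c ≠ 0) (hfac : ∀ c : PR n, u c.1.1 - u c.1.2 =
      C (κ c) * ∏ j ∈ univ.filter (fun j => cls j = c), f j) (t : ℤ) :
    Function.Injective (fun i => (u i).eval t) ↔ ∀ j, (f j).eval t ≠ 0 := by
  have hev : ∀ c : PR n, (u c.1.1).eval t - (u c.1.2).eval t =
      κ c * ∏ j ∈ univ.filter (fun j => cls j = c), (f j).eval t := by
    intro c
    rw [← eval_sub, hfac c, eval_mul, eval_C, eval_prod]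
  constructor
  · intro h j h0
    have h1 := hev (cls j)
    rw [prod_eq_zero (i := j) (by simp) h0, mul_zero, sub_eq_zero] at h1
    exact (cls j).2.ne (h h1)
  · intro h
    have key : ∀ i j : Fin n, i < j → (u i).eval t ≠ (u j).eval t := by
      intro i j hij h1
      have h2 := hev ⟨(i, j), hij⟩
      simp only at h2
      rw [h1, sub_self] at h2
      exact (mul_ne_zero (hκ _) (prod_ne_zero_iff.2 fun l _ => h l)) h2.symm
    intro i j hij
    rcases lt_trichotomy i j with h1 | h1 | h1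
    · exact absurd hij (key i j h1)
    · exact h1
    · exact absurd hij.symm (key j i h1)

/-- a polynomial coprime to all the differences is not associated with a factor -/
lemma not_assoc (hf : Irr f) (hfac : ∀ c : PR n, u c.1.1 - u c.1.2 =
      C (κ c) * ∏ j ∈ univ.filter (fun j => cls j = c), f j) {G : ℤ[X]}
    (hG : ∀ i j, i < j → IsCoprime (G.map (Int.castRingHom ℚ))
      ((u i - u j).map (Int.castRingHom ℚ))) (j : J) : ¬ Associated (f j) G := by
  intro has
  have h1 : (f j).map (Int.castRingHom ℚ) ∣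
      (u (cls j).1.1 - u (cls j).1.2).map (Int.castRingHom ℚ) := by
    apply Polynomial.map_dvd
    rw [hfac (cls j)]
    refine Dvd.dvd.mul_left (dvd_prod_of_mem f ?_) _
    simp
  have h2 : (f j).map (Int.castRingHom ℚ) ∣ G.map (Int.castRingHom ℚ) :=
    Polynomial.map_dvd _ has.dvd
  exact (map_irr (hf.irr j) (hf.deg j)).not_isUnit
    ((hG _ _ (cls j).2).isUnit_of_dvd' h2 h1)

end

open Classical in
/-- **the moments of the 2-Selmer groups in a family, at prime arguments** -/
theorem gen_prime (g k ν L : ℕ) (hg : 1 ≤ g) (hk : 1 ≤ k) (hkg : 2 ^ k ≤ 2 * g) (hν : 1 ≤ ν)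
    (u : Fin (2 * g + 1) → ℤ[X]) (hu : Gen u) (hnf : ∀ i j, i < j → nf (u i - u j) = ν)
    {r : ℕ} {G : Fin r → ℤ[X]} (hG : Irr G)
    (hGu : ∀ l i j, i < j → IsCoprime ((G l).map (Int.castRingHom ℚ))
      ((u i - u j).map (Int.castRingHom ℚ))) :
    ∃ C : ℝ, 0 ≤ C ∧ ∀ (N : ℤ) (M : ℕ), 2 ≤ M → |N| ≤ (M : ℤ) ^ L →
      ∑ t ∈ (Ioc N (N + M)).filter (fun t => NDeg u t ∧ AllPr G t),
        ((SelJ (fun i => (u i).eval t)).ncard : ℝ) ^ k ≤ C * (M / (Real.log M) ^ r) := by
  obtain ⟨J, iJ, iJ', κ, cls, f, hf, hκ, hfac, hcard⟩ := exists_data u hu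
  have hPen : Pen u κ cls f ν :=
    ⟨hf, hκ, fun c => by rw [hcard c]; exact hnf _ _ c.2, hfac⟩
  have hav : ∀ (B : ℕ) (G' : ℤ[X]), Squarefree (((∏ j, f j) * G').map (Int.castRingHom ℚ)) →
      SiftAv (fun t => ((SelJ (fun i => (u i).eval t)).ncard : ℝ) ^ k)
        (NDeg u) G' B := by
    intro B G' hG'
    obtain ⟨z0, hz0⟩ := penj g k ν B J u κ cls f hg hk hkg hν hPen G' hG'
    refine ⟨z0, fun z hz => ?_⟩
    obtain ⟨C2, hC2⟩ := hz0 z hz
    refine ⟨C2, fun N X hX hN T hT hT2 => hC2 N X hX hN T hT fun t ht => ?_⟩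
    exact ⟨(inj_iff hκ hfac _).1 (hT2 t ht).1, (hT2 t ht).2⟩
  have h1 := hav 1 1 (by rw [mul_one]; exact hf.sqf)
  have hall : Irr (Sum.elim f G) := irr_sum hf hG fun j l => not_assoc hf hfac (hGu l) j
  have hsq : Squarefree (((∏ j, f j) * ∏ i, G i).map (Int.castRingHom ℚ)) := by
    have := hall.sqf
    rw [Fintype.prod_sum_type] at this
    exact this
  have h2 := hav L (∏ i, G i) hsq
  exact prime_av (fun t => by positivity) hG L h1 h2

end Pool.Agent.TH344.PJ
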